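import Pool.Agent.MP_d636e9_nt.Ratio

/-! The Wronskian identity for the two Pade polynomials. -/

namespace Pool.Agent.MP_d636e9_nt

open Finset Polynomial

noncomputable def th (f : ℚ[X]) : ℚ[X] := X * derivative f

theorem th_coeff (f : ℚ[X]) (k : ℕ) : (th f).coeff k = k * f.coeff k := by
  cases k with
  | zero => simp [th]
  | succ k => rw [th, coeff_X_mul, coeff_derivative]; push_cast; ring

noncomputable def hp (n : ℕ) (b c : ℚ) : ℚ[X] := ∑ k ∈ range (n + 1), monomial k (hc n b c k)

theorem hp_coeff (n : ℕ) (b c : ℚ) (k : ℕ) : (hp n b c).coeff k = hc n b c k := by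
  simp only [hp, finsetSum_coeff, coeff_monomial, sum_ite_eq', mem_range]
  split_ifs with h
  · rfl
  · rw [hc_zero _ _ (by omega)]

theorem hp_natDegree (n : ℕ) (b c : ℚ) : (hp n b c).natDegree ≤ n :=
  natDegree_le_iff_coeff_eq_zero.2 fun k hk => by rw [hp_coeff, hc_zero _ _ hk]

theorem th_natDegree {f : ℚ[X]} {n : ℕ} (h : f.natDegree ≤ n) : (th f).natDegree ≤ n :=
  natDegree_le_iff_coeff_eq_zero.2 fun k hk => by
    rw [th_coeff, natDegree_le_iff_coeff_eq_zero.1 h k hk, mul_zero]

theorem hp_ode (n : ℕ) (b : ℚ) : th (th (hp n b (-2 * n))) + C (-2 * n - 1 : ℚ) * th (hp n b (-2 * n)) =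
    X * (th (th (hp n b (-2 * n))) + C (b - n) * th (hp n b (-2 * n)) +
      C (-n * b) * hp n b (-2 * n)) := by
  ext k
  cases k with
  | zero => simp [th_coeff]
  | succ k =>
    rw [coeff_X_mul]
    simp only [coeff_add, coeff_C_mul, th_coeff, hp_coeff]
    rcases lt_trichotomy k n with h | h | h
    · have hk : (k : ℚ) < n := by exact_mod_cast h
      have hk0 : (0 : ℚ) ≤ k := by positivity
      have h1 : (k : ℚ) + -2 * n ≠ 0 := by linarith
      rw [hc_succ]
      push_cast
      rw [show (-2 * (n : ℚ) - 1) = (k + -2 * n) - (k + 1) by ring]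
      generalize (k : ℚ) + -2 * n = a at h1 ⊢
      field_simp
      ring
    · subst h
      rw [hc_zero _ _ (Nat.lt_succ_self k)]
      ring
    · rw [hc_zero _ _ h, hc_zero _ _ (show n < k + 1 by omega)]
      ring

theorem th_mul (f g : ℚ[X]) : th (f * g) = th f * g + f * th g := by
  simp only [th, derivative_mul]; ring

theorem th_sub (f g : ℚ[X]) : th (f - g) = th f - th g := by
  simp only [th, derivative_sub]; ring

theorem wron_poly (n : ℕ) (μ : ℚ) :
    (1 - X) * (hp n (-n - μ) (-2 * n) * th (hp n (-n + μ) (-2 * n)) -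
      hp n (-n + μ) (-2 * n) * th (hp n (-n - μ) (-2 * n))) -
      C μ * X * (hp n (-n - μ) (-2 * n) * hp n (-n + μ) (-2 * n)) =
    C (-μ * hc n (-n - μ) (-2 * n) n * hc n (-n + μ) (-2 * n) n) * X ^ (2 * n + 1) := by
  have hP := hp_ode n (-n - μ)
  have hQ := hp_ode n (-n + μ)
  have dP := hp_natDegree n (-n - μ) (-2 * n)
  have dQ := hp_natDegree n (-n + μ) (-2 * n)
  rw [← hp_coeff, ← hp_coeff]
  generalize hp n (-n - μ) (-2 * n) = P at *
  generalize hp n (-n + μ) (-2 * n) = Q at *
  set W := (1 - X) * (P * th Q - Q * th P) - C μ * X * (P * Q) with hW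
  have h1 : th W = C (2 * n + 1 : ℚ) * W := by
    have hX : th (1 - X) = -X := by simp [th]
    have hC : th (C μ * X) = C μ * X := by simp [th, X_mul_C]
    simp only [hW, th_sub, th_mul, hX, hC]
    simp only [map_sub, map_add, map_mul, map_neg, map_one, map_ofNat, map_natCast] at hP hQ ⊢
    linear_combination P * hQ - Q * hP
  ext k
  rw [coeff_C_mul, coeff_X_pow]
  split_ifs with h
  · subst h
    have e1 : (P * th Q - Q * th P).coeff (n + n + 1) = 0 := by
      rw [coeff_sub, coeff_eq_zero_of_natDegree_lt, coeff_eq_zero_of_natDegree_lt, sub_zero]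
      · exact (natDegree_mul_le.trans (add_le_add dQ (th_natDegree dP))).trans_lt (by omega)
      · exact (natDegree_mul_le.trans (add_le_add dP (th_natDegree dQ))).trans_lt (by omega)
    rw [hW, two_mul, sub_mul, one_mul, coeff_sub, coeff_sub, e1, coeff_X_mul, mul_assoc, coeff_C_mul,
      coeff_X_mul, coeff_sub, coeff_mul_add_eq_of_natDegree_le dP (th_natDegree dQ),
      coeff_mul_add_eq_of_natDegree_le dQ (th_natDegree dP), coeff_mul_add_eq_of_natDegree_le dP dQ,
      th_coeff, th_coeff]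
    ring
  · have h2 := congrArg (fun f => coeff f k) h1
    simp only [th_coeff, coeff_C_mul] at h2
    have h3 : (k : ℚ) - (2 * n + 1) ≠ 0 := by
      rw [sub_ne_zero]
      exact_mod_cast h
    rw [mul_zero]
    exact (mul_eq_zero.1 (show ((k : ℚ) - (2 * n + 1)) * W.coeff k = 0 by
      linear_combination h2)).resolve_left h3

variable {S : Type} [CommRing S] [Algebra ℚ S]

theorem aeval_eq_ev (r : S) {f : ℚ[X]} {n : ℕ} (h : f.natDegree ≤ n) :
    aeval (8 + 4 * r) f = ev r (n + 1) f.coeff := by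
  rw [aeval_eq_sum_range' (Nat.lt_succ_of_le h), ev]
  exact sum_congr rfl fun k _ => Algebra.smul_def _ _

theorem wron (r : S) (n : ℕ) :
    (1 - (8 + 4 * r)) * (ev r (n + 1) (T2 n) * ev r (n + 1) (fun k => k * T3 n k) -
      ev r (n + 1) (T3 n) * ev r (n + 1) (fun k => k * T2 n k)) -
      algebraMap ℚ S ((2 * n + 1) / 4) * (8 + 4 * r) * (ev r (n + 1) (T2 n) * ev r (n + 1) (T3 n)) =
    algebraMap ℚ S (-((2 * n + 1) / 4) * T2 n n * T3 n n) * (8 + 4 * r) ^ (2 * n + 1) := by
  have h := congrArg (aeval (8 + 4 * r)) (wron_poly n ((2 * n + 1) / 4))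
  simp only [map_sub, map_mul, map_one, aeval_X, aeval_C, map_pow] at h
  rw [aeval_eq_ev r (hp_natDegree _ _ _), aeval_eq_ev r (hp_natDegree _ _ _),
    aeval_eq_ev r (th_natDegree (hp_natDegree _ _ _)),
    aeval_eq_ev r (th_natDegree (hp_natDegree _ _ _)), funext (hp_coeff _ _ _),
    funext (hp_coeff _ _ _), funext (th_coeff _), funext (th_coeff _)] at h
  simp only [hp_coeff] at h
  simp only [map_mul]
  exact h

end Pool.Agent.MP_d636e9_nt
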