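import Mathlib.Algebra.QuadraticAlgebra.Basic
import Mathlib.Data.Nat.Choose.Dvd
import Mathlib.NumberTheory.Padics.RingHoms
import Mathlib.NumberTheory.JacobiSum.Basic
import Mathlib.RingTheory.SimpleRing.Principal
import Mathlib.NumberTheory.Padics.Hensel
import Mathlib.RingTheory.Henselian
import Mathlib.RingTheory.RegularLocalRing.Defs
import Mathlib.Tactic.NormNum.LegendreSymbol
import Pool.Agent.MP_d636e9_nt.Wron

-- ======== part 0: formerly Pool.Agent.MP_d636e9_nt.Red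
section MrgPart0

/-! Reduction of `p`-integral rationals modulo `p ^ 2`, and the first-order expansion of the
hypergeometric coefficients in the parameters. -/

namespace Pool.Agent.MP_d636e9_nt

open Finset

/-- `Red N x r`: the rational `x` has denominator prime to `N` and reduces to `r` modulo `N`. -/
def Red (N : ℕ) (x : ℚ) (r : ZMod N) : Prop :=
  ∃ a b : ℤ, b ≠ 0 ∧ IsUnit (b : ZMod N) ∧ x * b = a ∧ r * b = a

namespace Red

variable {N : ℕ} {x y : ℚ} {r s : ZMod N}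

theorem intCast (a : ℤ) : Red N a a := ⟨a, 1, one_ne_zero, by simp, by simp, by simp⟩

theorem natCast (a : ℕ) : Red N a a := by simpa using intCast (N := N) a

theorem zero : Red N 0 0 := by simpa using natCast (N := N) 0

theorem one : Red N 1 1 := by simpa using natCast (N := N) 1

theorem ofNat (a : ℕ) [a.AtLeastTwo] : Red N (OfNat.ofNat a) (OfNat.ofNat a) := natCast a

theorem add (h1 : Red N x r) (h2 : Red N y s) : Red N (x + y) (r + s) := by
  obtain ⟨a, b, b0, hb, e1, e2⟩ := h1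
  obtain ⟨c, d, d0, hd, e3, e4⟩ := h2
  refine ⟨a * d + c * b, b * d, mul_ne_zero b0 d0, by push_cast; exact hb.mul hd, ?_, ?_⟩
  · push_cast; linear_combination d * e1 + b * e3
  · push_cast; linear_combination d * e2 + b * e4

theorem mul (h1 : Red N x r) (h2 : Red N y s) : Red N (x * y) (r * s) := by
  obtain ⟨a, b, b0, hb, e1, e2⟩ := h1
  obtain ⟨c, d, d0, hd, e3, e4⟩ := h2
  refine ⟨a * c, b * d, mul_ne_zero b0 d0, by push_cast; exact hb.mul hd, ?_, ?_⟩
  · push_cast; rw [← e1, ← e3]; ring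
  · push_cast; rw [← e2, ← e4]; ring

theorem neg (h1 : Red N x r) : Red N (-x) (-r) := by
  simpa using (intCast (N := N) (-1)).mul h1

theorem sub (h1 : Red N x r) (h2 : Red N y s) : Red N (x - y) (r - s) := by
  simpa [sub_eq_add_neg] using h1.add h2.neg

theorem pow (h1 : Red N x r) (k : ℕ) : Red N (x ^ k) (r ^ k) := by
  induction k with
  | zero => simpa using one
  | succ k ih => rw [pow_succ, pow_succ]; exact ih.mul h1

theorem div [Nontrivial (ZMod N)] (h1 : Red N x r) (h2 : Red N y s) {v : ZMod N}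
    (hv : s * v = 1) : Red N (x / y) (r * v) := by
  rw [div_eq_mul_inv]
  refine h1.mul ?_
  obtain ⟨c, d, d0, hd, e3, e4⟩ := h2
  have hc : IsUnit (c : ZMod N) := e4 ▸ (IsUnit.of_mul_eq_one v hv).mul hd
  have c0 : c ≠ 0 := by rintro rfl; simp at hc
  have y0 : y ≠ 0 := by
    rintro rfl
    rw [zero_mul] at e3
    exact c0 (by exact_mod_cast e3.symm)
  refine ⟨d, c, c0, hc, ?_, ?_⟩
  · rw [← e3]; field_simp
  · rw [← e4]; linear_combination (d : ZMod N) * hv

theorem sum {ι : Type} (t : Finset ι) {f : ι → ℚ} {g : ι → ZMod N}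
    (h : ∀ i ∈ t, Red N (f i) (g i)) : Red N (∑ i ∈ t, f i) (∑ i ∈ t, g i) := by
  classical
  induction t using Finset.induction_on with
  | empty => simpa using zero
  | insert a t ha ih =>
    rw [sum_insert ha, sum_insert ha]
    exact (h a (mem_insert_self _ _)).add (ih fun i hi => h i (mem_insert_of_mem hi))

theorem prod {ι : Type} (t : Finset ι) {f : ι → ℚ} {g : ι → ZMod N}
    (h : ∀ i ∈ t, Red N (f i) (g i)) : Red N (∏ i ∈ t, f i) (∏ i ∈ t, g i) := by
  classical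
  induction t using Finset.induction_on with
  | empty => simpa using one
  | insert a t ha ih =>
    rw [prod_insert ha, prod_insert ha]
    exact (h a (mem_insert_self _ _)).mul (ih fun i hi => h i (mem_insert_of_mem hi))

theorem unique (h1 : Red N x r) (h2 : Red N x s) : r = s := by
  obtain ⟨a, b, -, hb, e1, e2⟩ := h1
  obtain ⟨c, d, -, hd, e3, e4⟩ := h2
  have h : a * d = c * b := by
    have : ((a * d : ℤ) : ℚ) = (c * b : ℤ) := by push_cast; rw [← e1, ← e3]; ring
    exact_mod_cast this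
  have h' := congrArg (Int.cast : ℤ → ZMod N) h
  push_cast at h'
  refine (hb.mul hd).mul_right_cancel ?_
  linear_combination d * e2 - b * e4 + h'

theorem dvd_num (h : Red N x 0) : (N : ℤ) ∣ x.num := by
  obtain ⟨a, b, -, hb, e1, e2⟩ := h
  have h : x.num * b = a * x.den := by
    have : ((x.num * b : ℤ) : ℚ) = (a * x.den : ℤ) := by
      push_cast
      rw [← e1, ← Rat.mul_den_eq_num]
      ring
    exact_mod_cast this
  have h' := congrArg (Int.cast : ℤ → ZMod N) h
  push_cast at h'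
  rw [← e2, zero_mul, zero_mul] at h'
  rw [← ZMod.intCast_zmod_eq_zero_iff_dvd]
  exact hb.mul_right_cancel (by rw [h', zero_mul])

theorem congr (h : Red N x r) {x' : ℚ} {r' : ZMod N} (e1 : x = x') (e2 : r = r') : Red N x' r' :=
  e1 ▸ e2 ▸ h

end Red

/-- Componentwise reduction on `ℚ (√3)`. -/
def Red2 (N : ℕ) (x : QuadraticAlgebra ℚ 3 0) (r : QuadraticAlgebra (ZMod N) 3 0) : Prop :=
  Red N x.re r.re ∧ Red N x.im r.im

namespace Red2

variable {N : ℕ} {x y : QuadraticAlgebra ℚ 3 0} {r s : QuadraticAlgebra (ZMod N) 3 0}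

theorem alg {a : ℚ} {b : ZMod N} (h : Red N a b) : Red2 N (algebraMap _ _ a) (algebraMap _ _ b) :=
  ⟨h, Red.zero⟩

theorem natCast (a : ℕ) : Red2 N a a := ⟨Red.natCast a, Red.zero⟩

theorem ofNat (a : ℕ) [a.AtLeastTwo] : Red2 N (OfNat.ofNat a) (OfNat.ofNat a) := natCast a

theorem one : Red2 N 1 1 := ⟨Red.one, Red.zero⟩

theorem omega : Red2 N QuadraticAlgebra.omega QuadraticAlgebra.omega := ⟨Red.zero, Red.one⟩

theorem add (h1 : Red2 N x r) (h2 : Red2 N y s) : Red2 N (x + y) (r + s) :=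
  ⟨h1.1.add h2.1, h1.2.add h2.2⟩

theorem neg (h1 : Red2 N x r) : Red2 N (-x) (-r) := ⟨h1.1.neg, h1.2.neg⟩

theorem sub (h1 : Red2 N x r) (h2 : Red2 N y s) : Red2 N (x - y) (r - s) :=
  ⟨h1.1.sub h2.1, h1.2.sub h2.2⟩

theorem mul (h1 : Red2 N x r) (h2 : Red2 N y s) : Red2 N (x * y) (r * s) := by
  constructor
  · rw [QuadraticAlgebra.re_mul, QuadraticAlgebra.re_mul]
    exact (h1.1.mul h2.1).add (((Red.ofNat 3).mul h1.2).mul h2.2)
  · rw [QuadraticAlgebra.im_mul, QuadraticAlgebra.im_mul]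
    exact ((h1.1.mul h2.2).add (h1.2.mul h2.1)).add ((Red.zero.mul h1.2).mul h2.2)

theorem pow (h1 : Red2 N x r) (k : ℕ) : Red2 N (x ^ k) (r ^ k) := by
  induction k with
  | zero => simpa using one
  | succ k ih => rw [pow_succ, pow_succ]; exact ih.mul h1

theorem unique (h1 : Red2 N x r) (h2 : Red2 N x s) : r = s :=
  QuadraticAlgebra.ext (h1.1.unique h2.1) (h1.2.unique h2.2)

end Red2

/-- The sum of `f k * (8 + 4 √3) ^ k` modulo `N`. -/
def evR (N B : ℕ) (f : ℕ → ZMod N) : QuadraticAlgebra (ZMod N) 3 0 :=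
  ∑ k ∈ range B, algebraMap _ _ (f k) * (8 + 4 * QuadraticAlgebra.omega) ^ k

theorem red_lam {N : ℕ} : Red2 N (8 + 4 * QuadraticAlgebra.omega) (8 + 4 * QuadraticAlgebra.omega) :=
  (Red2.ofNat 8).add ((Red2.ofNat 4).mul Red2.omega)

theorem red_ev {N B : ℕ} {f : ℕ → ℚ} {g : ℕ → ZMod N} (h : ∀ k, k < B → Red N (f k) (g k)) :
    Red2 N (ev QuadraticAlgebra.omega B f) (evR N B g) := by
  unfold ev evR
  induction B with
  | zero => exact ⟨Red.zero, Red.zero⟩
  | succ B ih =>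
    rw [sum_range_succ, sum_range_succ]
    exact (ih fun k hk => h k (by omega)).add ((Red2.alg (h B (by omega))).mul (red_lam.pow B))

theorem evR_lin {N B : ℕ} (a b : ZMod N) (f g u : ℕ → ZMod N) :
    evR N B (fun k => f k + a * g k + b * u k) =
      evR N B f + algebraMap _ _ a * evR N B g + algebraMap _ _ b * evR N B u := by
  simp only [evR, mul_sum, ← sum_add_distrib, map_add, map_mul]
  exact sum_congr rfl fun k _ => by ring

abbrev Zq (p : ℕ) : Type := ZMod (p ^ 2)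

abbrev Rd (p : ℕ) (x : ℚ) (r : Zq p) : Prop := Red (p ^ 2) x r

variable {p : ℕ} [hp : Fact p.Prime]

instance : Nontrivial (Zq p) :=
  ZMod.nontrivial_iff.2 (Nat.one_lt_pow two_ne_zero hp.out.one_lt).ne'

omit hp in
theorem P_sq : (p : Zq p) ^ 2 = 0 := by
  rw [← Nat.cast_pow, ZMod.natCast_self]

theorem unit_of_lt {a : ℕ} (h0 : 0 < a) (h : a < p) : IsUnit (a : Zq p) := by
  rw [ZMod.isUnit_iff_coprime]
  exact Nat.Coprime.pow_right 2 (Nat.coprime_of_lt_prime h0.ne' h hp.out).symm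

def iv (p a : ℕ) : Zq p := (a : Zq p)⁻¹

theorem mul_iv {a : ℕ} (h0 : 0 < a) (h : a < p) : (a : Zq p) * iv p a = 1 :=
  ZMod.mul_inv_of_unit _ (unit_of_lt h0 h)

def t0 (p k : ℕ) : Zq p := ∏ i ∈ range k, ((i + iv p 2) * iv p (i + 1)) ^ 2

def hA (p k : ℕ) : Zq p := ∑ i ∈ range k, 2 * iv p (2 * i + 1)

def hB (p k : ℕ) : Zq p := ∑ i ∈ range k, iv p (i + 1)

theorem red_hc {n : ℕ} (hn : p = 2 * n + 1) {b c : ℚ} {b' c' : Zq p}
    (hb : Rd p b (iv p 2 + b' * p)) (hc' : Rd p c (1 + c' * p)) (k : ℕ)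
    (hk : k < n + 1) : Rd p (hc n b c k)
      (t0 p k + (p * (b' - iv p 2)) * (t0 p k * hA p k) + (-(p * c')) * (t0 p k * hB p k)) := by
  induction k with
  | zero => simpa [hc, t0, hA, hB] using Red.one
  | succ k ih =>
    have h2 := mul_iv (p := p) (a := 2) two_pos (by omega)
    have hu := mul_iv (p := p) (a := 2 * k + 1) (by omega) (by omega)
    have hv := mul_iv (p := p) (a := k + 1) (by omega) (by omega)
    have hP := P_sq (p := p)
    have hN : (p : Zq p) = 2 * n + 1 := by exact_mod_cast congrArg (Nat.cast (R := Zq p)) hn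
    push_cast at h2 hu hv
    rw [hc_succ]
    refine ((ih (by omega)).mul ((((Red.natCast k).sub (Red.natCast n)).mul
      ((Red.natCast k).add hb)).div (((Red.natCast k).add Red.one).mul ((Red.natCast k).add hc'))
      (v := iv p (k + 1) ^ 2 * (1 - c' * p * iv p (k + 1))) ?_)).congr rfl ?_
    · generalize iv p (k + 1) = v at *
      generalize (p : Zq p) = P at *
      grind
    · rw [show t0 p (k + 1) = t0 p k * ((k + iv p 2) * iv p (k + 1)) ^ 2 from prod_range_succ _ _,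
        show hA p (k + 1) = hA p k + 2 * iv p (2 * k + 1) from sum_range_succ _ _,
        show hB p (k + 1) = hB p k + iv p (k + 1) from sum_range_succ _ _]
      have e1 : (k : Zq p) - n = k + iv p 2 - iv p 2 * p := by
        linear_combination n * h2 + iv p 2 * hN
      have e2 : ((k : Zq p) + iv p 2) * (2 * iv p (2 * k + 1)) = 1 := by
        linear_combination hu + iv p (2 * k + 1) * h2
      rw [e1, ← add_assoc]
      generalize (k : Zq p) + iv p 2 = a at *
      generalize iv p (k + 1) = v at *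
      generalize 2 * iv p (2 * k + 1) = u at *
      generalize iv p 2 = h at *
      generalize (p : Zq p) = P at *
      generalize t0 p k = T
      generalize hA p k = A
      generalize hB p k = B
      clear ih hb hc' hN hu hv h2 e1
      grind

theorem red_t0 {n : ℕ} (hn : p = 2 * n + 1) (k : ℕ) (hk : k < n + 1) :
    Rd p (((2 * k).choose k : ℚ) ^ 2 / 16 ^ k) (t0 p k) := by
  induction k with
  | zero => simpa [t0] using Red.one
  | succ k ih =>
    have h2 := mul_iv (p := p) (a := 2) two_pos (by omega)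
    have hv := mul_iv (p := p) (a := k + 1) (by omega) (by omega)
    have h := Nat.succ_mul_centralBinom_succ k
    rw [Nat.centralBinom, Nat.centralBinom] at h
    have h' : ((2 * (k + 1)).choose (k + 1) : ℚ) = 2 * (2 * k + 1) * (2 * k).choose k / (k + 1) := by
      rw [eq_div_iff (by positivity)]
      exact_mod_cast (mul_comm _ _).trans h
    refine ((ih (by omega)).mul ((((Red.natCast k).add (Red.one.div (Red.natCast 2) h2)).div
      (Red.natCast (k + 1)) hv).pow 2)).congr ?_ ?_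
    · rw [h']
      push_cast
      field_simp
      ring
    · rw [t0, t0, prod_range_succ, one_mul]

end Pool.Agent.MP_d636e9_nt

end MrgPart0

-- ======== part 1: formerly Pool.Agent.MP_d636e9_nt.Gam
section MrgPart1

/-! The closed forms `g1`, `g4`, `h4` modulo `p ^ 2`. -/

namespace Pool.Agent.MP_d636e9_nt

open Finset

variable {p : ℕ} [hp : Fact p.Prime]

/-- Reduction modulo `p`. -/
def red1 (p : ℕ) : Zq p →+* ZMod p := ZMod.castHom (dvd_pow_self p two_ne_zero) (ZMod p)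

theorem red1_P : red1 p (p : Zq p) = 0 := by rw [map_natCast, ZMod.natCast_self]

theorem exists_of_red1 {x y : Zq p} (h : red1 p x = red1 p y) : ∃ z, x = y + p * z := by
  obtain ⟨a, ha⟩ := ZMod.intCast_surjective (x - y)
  have h1 : red1 p (x - y) = 0 := by rw [map_sub, h, sub_self]
  rw [← ha, map_intCast, ZMod.intCast_zmod_eq_zero_iff_dvd] at h1
  obtain ⟨z, rfl⟩ := h1
  exact ⟨z, by push_cast at ha; linear_combination -ha⟩

theorem P_mul_iff {x y : Zq p} : p * x = p * y ↔ red1 p x = red1 p y := by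
  constructor
  · intro h
    obtain ⟨a, ha⟩ := ZMod.intCast_surjective (x - y)
    have h1 : ((p * a : ℤ) : Zq p) = 0 := by push_cast; rw [ha]; linear_combination h
    rw [ZMod.intCast_zmod_eq_zero_iff_dvd] at h1
    push_cast at h1
    rw [sq, mul_dvd_mul_iff_left (by exact_mod_cast hp.out.ne_zero)] at h1
    rw [← sub_eq_zero, ← map_sub, ← ha, map_intCast, ZMod.intCast_zmod_eq_zero_iff_dvd]
    exact h1
  · intro h
    obtain ⟨z, rfl⟩ := exists_of_red1 h
    linear_combination z * P_sq (p := p)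

theorem unit_of_red1 {x : Zq p} (h : red1 p x ≠ 0) : IsUnit x := by
  obtain ⟨v, hv⟩ := ZMod.ringHom_surjective (red1 p) (red1 p x)⁻¹
  obtain ⟨z, hz⟩ := exists_of_red1 (x := x * v) (y := 1) (by
    rw [map_mul, hv, map_one, mul_inv_cancel₀ h])
  exact IsUnit.of_mul_eq_one (v * (1 - p * z)) (by
    linear_combination (1 - p * z) * hz - z ^ 2 * P_sq (p := p))

theorem pow_add_P {A : Type} [CommRing A] {P : A} (hP : P ^ 2 = 0) (y q : A) (v : ℕ) :
    (y + P * q) ^ (v + 1) = y ^ (v + 1) + (v + 1) * y ^ v * (P * q) := by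
  induction v with
  | zero => simp
  | succ v ih =>
    rw [pow_succ _ (v + 1), ih]
    push_cast
    linear_combination (v + 1) * y ^ v * q ^ 2 * hP

theorem pow_p_congr {x y : Zq p} (h : red1 p x = red1 p y) : x ^ p = y ^ p := by
  obtain ⟨z, rfl⟩ := exists_of_red1 h
  obtain ⟨k, hk⟩ : ∃ k, p = k + 1 := ⟨p - 1, by have := hp.out.pos; omega⟩
  have h1 := pow_add_P (P_sq (p := p)) y z k
  have h2 : ((k : Zq p) + 1) = p := by exact_mod_cast congrArg (Nat.cast (R := Zq p)) hk.symm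
  rw [← hk, h2] at h1
  linear_combination h1 + y ^ k * z * P_sq (p := p)

theorem red1_ne {a : ℕ} (h0 : 0 < a) (h : a < p) : (a : ZMod p) ≠ 0 := by
  rw [Ne, ZMod.natCast_eq_zero_iff]
  exact Nat.not_dvd_of_pos_of_lt h0 h

def Qp (p a k : ℕ) (x y : ℚ) : ℚ := ∏ i ∈ range k, ((a : ℚ) + i + 1 + x * p) / (i + 1 + y * p)

theorem red_Q {a : ℕ} {x y : ℚ} {x' y' : Zq p} (hx : Rd p x x') (hy : Rd p y y') (k : ℕ)
    (hk : a + k < p) : Rd p (Qp p a k x y)
      ((a + k).choose k * (1 + p * (x' * (hB p (a + k) - hB p a) - y' * hB p k))) := by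
  induction k with
  | zero => simpa [Qp, hB] using Red.one
  | succ k ih =>
    have hv := mul_iv (p := p) (a := k + 1) (by omega) (by omega)
    have hu := mul_iv (p := p) (a := a + k + 1) (by omega) (by omega)
    have hP := P_sq (p := p)
    have hc := congrArg (Nat.cast (R := Zq p)) (Nat.add_one_mul_choose_eq (a + k) k)
    push_cast at hu hv hc
    rw [Qp, prod_range_succ, ← Qp]
    refine ((ih (by omega)).mul (((((Red.natCast a).add (Red.natCast k)).add Red.one).add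
      (hx.mul (Red.natCast p))).div (((Red.natCast k).add Red.one).add (hy.mul (Red.natCast p)))
      (v := iv p (k + 1) * (1 - y' * p * iv p (k + 1))) ?_)).congr rfl ?_
    · generalize iv p (k + 1) = v at *
      generalize (p : Zq p) = P at *
      linear_combination (1 - y' * P * v) * hv + y' * P * v * hv - y' ^ 2 * v ^ 2 * hP -
        y' * P * v * hv
    · rw [← add_assoc, show hB p (a + k + 1) = hB p (a + k) + iv p (a + k + 1) from
        sum_range_succ _ _, show hB p (k + 1) = hB p k + iv p (k + 1) from sum_range_succ _ _]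
      have e1 : ((a + k + 1).choose (k + 1) : Zq p) = (a + k).choose k * (a + k + 1) * iv p (k + 1) := by
        linear_combination -iv p (k + 1) * hc - ((a + k + 1).choose (k + 1) : Zq p) * hv
      rw [e1]
      generalize (a : Zq p) + k + 1 = b at *
      generalize iv p (k + 1) = v at *
      generalize iv p (a + k + 1) = u at *
      generalize (p : Zq p) = P at *
      generalize hB p k = B
      generalize hB p a = B'
      generalize hB p (a + k) = B''
      generalize ((a + k).choose k : Zq p) = C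
      clear ih hx hy hv hc e1
      grind

omit hp in
theorem g1_eq_Q {m : ℕ} (hm : p = 6 * m + 1) : g1 m = (-1 / 4) ^ m * Qp p m m (-1 / 3) (-1 / 6) := by
  rw [g1, Qp, ← prod_range_reflect, pow_eq_prod_const, ← prod_mul_distrib]
  refine prod_congr rfl fun i hi => ?_
  obtain ⟨d, rfl⟩ := Nat.exists_eq_add_of_lt (mem_range.1 hi)
  rw [show i + d + 1 - 1 - i = d by omega, hm]
  push_cast
  rw [show ((i : ℚ) + 1 + -1 / 6 * (6 * (i + d + 1) + 1)) = -(6 * d + 1) / 6 by ring]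
  field_simp
  ring

omit hp in
theorem g4_eq_Q {m : ℕ} (hm : p = 6 * m + 1) :
    g4 (3 * m) = (3 / 4) ^ (3 * m) * Qp p m (3 * m) (-2 / 3) (-1 / 2) := by
  rw [g4, Qp, ← prod_range_reflect, pow_eq_prod_const, ← prod_mul_distrib]
  refine prod_congr rfl fun i hi => ?_
  obtain ⟨d, hd⟩ := Nat.exists_eq_add_of_lt (mem_range.1 hi)
  have hd' : (3 * m : ℚ) = i + d + 1 := by exact_mod_cast hd
  rw [show 3 * m - 1 - i = d by omega, hm]
  push_cast
  rw [show ((i : ℚ) + 1 + -1 / 2 * (6 * m + 1)) = -(2 * d + 1) / 2 by linear_combination -hd',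
    show ((m : ℚ) + i + 1 + -2 / 3 * (6 * m + 1)) = -(3 * d + 2) / 3 by linear_combination -hd']
  field_simp
  ring

omit hp in
theorem choose_eq_Q (b k : ℕ) : ((b + k + p).choose k : ℚ) = Qp p b k 1 0 := by
  induction k with
  | zero => simp [Qp]
  | succ k ih =>
    have hc := congrArg (Nat.cast (R := ℚ)) (Nat.add_one_mul_choose_eq (b + k + p) k)
    push_cast at hc
    rw [Qp, prod_range_succ, ← Qp, ← ih, show b + (k + 1) + p = b + k + p + 1 by ring]
    simp only [zero_mul, add_zero, one_mul]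
    field_simp
    linear_combination -hc

theorem choose_add_P (b k : ℕ) (h : b + k < p) : ((b + k + p).choose k : Zq p) =
    (b + k).choose k * (1 + p * (hB p (b + k) - hB p b)) := by
  have h1 := red_Q (p := p) (a := b) Red.one Red.zero k h
  rw [← choose_eq_Q] at h1
  rw [(Red.natCast _).unique h1]
  ring

omit hp in
theorem g4_mul_h4 (n : ℕ) : g4 n * h4 n * (3 ^ n * n.factorial * (∏ j ∈ range n, (4 * (j : ℚ) + 2)) ^ 2) =
    (3 * n + 1).factorial := by
  induction n with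
  | zero => simp [g4, h4]
  | succ n ih =>
    rw [g4, h4, prod_range_succ, prod_range_succ, prod_range_succ, ← g4, ← h4,
      show 3 * (n + 1) + 1 = 3 * n + 1 + 1 + 1 + 1 by ring, Nat.factorial_succ,
      Nat.factorial_succ (3 * n + 1 + 1 + 1), Nat.factorial_succ (3 * n + 1 + 1),
      Nat.factorial_succ (3 * n + 1)]
    push_cast
    rw [← ih]
    field_simp
    ring

theorem prod_reflect_neg {n : ℕ} (f : ℕ → ZMod p) (c : ZMod p)
    (h : ∀ i d, n = i + d + 1 → f d = c * (i + 1)) :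
    ∏ j ∈ range n, f j = c ^ n * n.factorial := by
  rw [← prod_range_reflect, ← prod_range_add_one_eq_factorial, Nat.cast_prod,
    pow_eq_prod_const, ← prod_mul_distrib]
  refine prod_congr rfl fun i hi => ?_
  obtain ⟨d, hd⟩ := Nat.exists_eq_add_of_lt (mem_range.1 hi)
  rw [show n - 1 - i = d by omega, h i d hd]
  push_cast
  ring

theorem exists_h4 {m : ℕ} (hm : p = 6 * m + 1) {G4 : Zq p} (hG : Rd p (g4 (3 * m)) G4)
    (h3 : (-3 : ZMod p) ^ (3 * m) = 1) :
    ∃ H4 : Zq p, Rd p (h4 (3 * m)) H4 ∧ G4 * H4 = p ∧ p * H4 = 0 := by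
  have hm0 : 0 < m := by
    rcases Nat.eq_zero_or_pos m with rfl | h
    · exact absurd (hm ▸ hp.out) (by decide)
    · exact h
  have hH : Rd p (h4 (3 * m)) (∏ j ∈ range (3 * m), (3 * (j : Zq p) + 4) * (iv p 2 * iv p (2 * j + 1))) := by
    refine Red.prod _ fun j hj => Red.div (((Red.ofNat 3).mul (Red.natCast j)).add (Red.ofNat 4))
      (((Red.ofNat 4).mul (Red.natCast j)).add (Red.ofNat 2)) ?_
    have h2 := mul_iv (p := p) (a := 2) two_pos (by omega)
    have hu := mul_iv (p := p) (a := 2 * j + 1) (by omega) (by simp at hj; omega)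
    push_cast at h2 hu
    linear_combination (2 * iv p 2) * hu + h2
  obtain ⟨H', hH'⟩ : (p : Zq p) ∣
      ∏ j ∈ range (3 * m), (3 * (j : Zq p) + 4) * (iv p 2 * iv p (2 * j + 1)) := by
    refine Dvd.dvd.trans ?_ (dvd_prod_of_mem _ (mem_range.2 (show 2 * m - 1 < 3 * m by omega)))
    refine Dvd.dvd.mul_right (dvd_of_eq ?_) _
    exact_mod_cast congrArg (Nat.cast (R := Zq p)) (show p = 3 * (2 * m - 1) + 4 by omega)
  rw [hH'] at hH
  refine ⟨_, hH, ?_, by linear_combination H' * P_sq (p := p)⟩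
  set n := 3 * m with hn
  have hpn : p = 2 * n + 1 := by omega
  have e1 := (hG.mul hH).mul ((((Red.ofNat 3).pow n).mul (Red.natCast n.factorial)).mul
    ((Red.prod (range n) fun j _ => ((Red.ofNat 4).mul (Red.natCast j)).add (Red.ofNat 2)).pow 2))
  rw [g4_mul_h4] at e1
  have e2 := e1.unique (Red.natCast _)
  have e3 : (3 * n + 1).factorial =
      p * (n.factorial * (∏ j ∈ range n, (n + 1 + j)) * ∏ j ∈ range n, (p + 1 + j)) := by
    rw [← Nat.ascFactorial_eq_prod_range, ← Nat.ascFactorial_eq_prod_range,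
      Nat.factorial_mul_ascFactorial, show 3 * n + 1 = p + n by omega,
      ← Nat.factorial_mul_ascFactorial p n, ← mul_assoc]
    congr 1
    rw [hpn, Nat.factorial_succ, two_mul]
  rw [e3, Nat.cast_mul, show ∀ x y z : Zq p, x * (p * y) * z = p * (x * y * z) from
    fun x y z => by ring, P_mul_iff] at e2
  have hz : ((2 * n + 1 : ℕ) : ZMod p) = 0 := by rw [← hpn, ZMod.natCast_self]
  push_cast at hz
  simp only [map_mul, map_pow, map_natCast, map_prod, map_add, map_ofNat, Nat.cast_mul,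
    Nat.cast_prod, Nat.cast_add, Nat.cast_one, ZMod.natCast_self, zero_add, map_one] at e2
  rw [prod_reflect_neg (fun j => 4 * (j : ZMod p) + 2) (-4) (fun i d h => by
      rw [h] at hz; push_cast at hz; linear_combination 2 * hz),
    prod_reflect_neg (fun j : ℕ => (n : ZMod p) + 1 + (j : ZMod p)) (-1) (fun i d h => by
      rw [h] at hz ⊢; push_cast at hz ⊢; linear_combination hz)] at e2
  have e4 : ∏ j ∈ range n, (1 + (j : ZMod p)) = n.factorial := by
    rw [← prod_range_add_one_eq_factorial, Nat.cast_prod]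
    exact prod_congr rfl fun j _ => by push_cast; ring
  have e5 : (n.factorial : ZMod p) ≠ 0 := by
    rw [Ne, ZMod.natCast_eq_zero_iff, hp.out.dvd_factorial]
    omega
  have e6 : ((-4 : ZMod p) ^ n) ^ 2 = 1 := by
    have h4 := ZMod.pow_card_sub_one_eq_one (red1_ne (p := p) (a := 4) (by norm_num) (by omega))
    rw [show p - 1 = 2 * n by omega] at h4
    rw [← pow_mul, mul_comm, (even_two_mul n).neg_pow]
    exact_mod_cast h4
  have e7 : (3 : ZMod p) ^ n = (-1) ^ n := by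
    rw [neg_pow] at h3
    have : ((-1 : ZMod p) ^ n) ^ 2 = 1 := by rw [← pow_mul, mul_comm, pow_mul]; simp
    linear_combination (-1) ^ n * h3 - 3 ^ n * this
  rw [e4, e7] at e2
  have e8 : red1 p (G4 * H') = red1 p 1 := by
    rw [map_mul, map_one]
    have e9 : ((-1 : ZMod p) ^ n * (n.factorial : ZMod p) ^ 3) ≠ 0 := by simp [e5]
    refine mul_right_cancel₀ e9 ?_
    linear_combination e2 - red1 p G4 * red1 p H' * (-1) ^ n * (n.factorial : ZMod p) ^ 3 * e6
  linear_combination P_mul_iff.2 e8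

end Pool.Agent.MP_d636e9_nt

end MrgPart1

-- ======== part 2: formerly Pool.Agent.MP_d636e9_nt.Alg
section MrgPart2

/-! The algebra that combines the four perturbed hypergeometric values. -/

namespace Pool.Agent.MP_d636e9_nt

variable {A : Type} [CommRing A]

theorem alg_F {P h d F0 X Y g1 g4 E e : A} (hP : P ^ 2 = 0) (h2 : 2 * h = 1) (h3 : 3 * d = 1)
    (uE : IsUnit E) (ug : IsUnit g1)
    (I1 : F0 + P * (-d - h) * X + -(P * (-2 * d)) * Y = E * g1)
    (I4 : F0 + P * (-1 - h) * X + -(P * (-2)) * Y = E * g4)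
    (I23 : F0 + P * (-3 * h ^ 2 - h) * X + -(P * (-1)) * Y =
      e * (F0 + P * (-h ^ 2 - h) * X + -(P * (-1)) * Y)) :
    P * e = P ∧ e * F0 = E * (h * (3 * g1 - g4)) := by
  have s1 : 2 * F0 - P * X = E * (3 * g1 - g4) := by
    linear_combination 3 * I1 - I4 + P * X * h2 + (P * X - 2 * P * Y) * h3
  have s3 : P * e = P := by
    refine (uE.mul ug).mul_left_cancel ?_
    linear_combination -P * I23 + P * (1 - e) * I1 + (X * d - X * d * e + X * e * h ^ 2 -
      3 * X * h ^ 2 + Y - 2 * Y * d + 2 * Y * d * e - Y * e) * hP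
  refine ⟨s3, ?_⟩
  have s4 : (1 - e) * F0 = 2 * h ^ 2 * (P * X) := by
    linear_combination I23 + ((-h ^ 2 - h) * X + Y) * s3
  linear_combination h * s1 - s4 - (F0 + h * P * X) * h2

theorem alg_D {P h d N r F0 X Y D0 X' Y' g1 g4 h4 e L ρ w π2 π3 : A} (hP : P ^ 2 = 0)
    (h2 : 2 * h = 1) (h3 : 3 * d = 1) (hr : r ^ 2 = 3) (hN : P = 2 * N + 1)
    (ue : IsUnit e) (uρ : IsUnit ρ) (hw : g1 * w = 1)
    (I1 : F0 + P * (-d - h) * X + -(P * (-2 * d)) * Y = ρ * (3 - 2 * r) * e * g1)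
    (I4 : F0 + P * (-1 - h) * X + -(P * (-2)) * Y = ρ * (3 - 2 * r) * e * g4)
    (I23 : F0 + P * (-3 * h ^ 2 - h) * X + -(P * (-1)) * Y =
      e * (F0 + P * (-h ^ 2 - h) * X + -(P * (-1)) * Y))
    (J1 : (1 - (4 + 2 * r)) * (D0 + P * (-d - h) * X' + -(P * (-2 * d)) * Y') =
      ρ * (3 - 2 * r) * e * (-N * (4 + 2 * r) * g1 + 2 * (N * g1)))
    (J4 : (1 - (4 + 2 * r)) * (D0 + P * (-1 - h) * X' + -(P * (-2)) * Y') =
      ρ * (3 - 2 * r) * e * (-N * (4 + 2 * r) * g4 + 2 * (h4 - (N + 1) * g4)))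
    (W : (1 - (8 + 4 * r)) * ((F0 + P * (-3 * h ^ 2 - h) * X + -(P * (-1)) * Y) *
        (D0 + P * (-h ^ 2 - h) * X' + -(P * (-1)) * Y') -
        (F0 + P * (-h ^ 2 - h) * X + -(P * (-1)) * Y) *
        (D0 + P * (-3 * h ^ 2 - h) * X' + -(P * (-1)) * Y')) -
        P * h ^ 2 * (8 + 4 * r) * ((F0 + P * (-3 * h ^ 2 - h) * X + -(P * (-1)) * Y) *
          (F0 + P * (-h ^ 2 - h) * X + -(P * (-1)) * Y)) =
        -(P * h ^ 2) * π2 * π3 * L)
    (p2 : P * π2 = P) (p3 : P * π3 = P) (hL : P * e = P → P * L = P * (8 - 4 * r))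
    (hρ : P * (-3 * ρ ^ 2) = P) (hh : g4 * h4 = P) (hh' : P * h4 = 0) :
    F0 = ρ * (3 - 2 * r) * (h * (3 * g1 - g4)) ∧
    D0 = ρ * ((-5 + 3 * r) * (h * (3 * g1 - g4)) + (11 * r - 19) * (P * w)) := by
  have uk : IsUnit (3 - 2 * r) := IsUnit.of_mul_eq_one (-d * (3 + 2 * r)) (by
    linear_combination 4 * d * hr + h3)
  have uη : IsUnit (1 - (4 + 2 * r)) := IsUnit.of_mul_eq_one (d * (3 - 2 * r)) (by
    linear_combination 4 * d * hr + h3)
  have ul : IsUnit (1 - (8 + 4 * r)) := IsUnit.of_mul_eq_one (4 * r - 7) (by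
    linear_combination (-16) * hr)
  have u2 : IsUnit (2 : A) := IsUnit.of_mul_eq_one h h2
  have ug : IsUnit g1 := IsUnit.of_mul_eq_one w hw
  have uE := (uρ.mul uk).mul ue
  obtain ⟨s3, s4⟩ := alg_F hP h2 h3 uE ug I1 I4 I23
  have hL := hL s3
  obtain ⟨v, hv⟩ := uE.exists_right_inv
  obtain ⟨z, hz⟩ : ∃ z, g4 = g1 + P * z :=
    ⟨v * ((d - 1) * X + (2 - 2 * d) * Y), by linear_combination v * (I1 - I4) + (g1 - g4) * hv⟩
  obtain ⟨g, hg⟩ : ∃ g, g = h * (3 * g1 - g4) := ⟨_, rfl⟩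
  have hg1 : g1 = g + h * P * z := by linear_combination -hg + h * hz - g1 * h2
  have hg4 : g4 = g + 3 * h * P * z := by linear_combination hz + hg1 - P * z * h2
  have hh4 : h4 = P * w := by linear_combination -h4 * hw + w * hh - w * h4 * hz - w * z * hh'
  have hw' : P * (g * w) = P := by linear_combination P * hw - P * w * hg1 - h * z * w * hP
  rw [← hg] at s4 ⊢
  have s5 : F0 = ρ * (3 - 2 * r) * g := ue.mul_left_cancel (by linear_combination s4)
  refine ⟨s5, ?_⟩
  have ugg : IsUnit g := IsUnit.of_mul_eq_one (w * (1 + h * P * z * w)) (by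
    have : g = g1 - h * P * z := by linear_combination -hg1
    rw [this]
    linear_combination (-h ^ 2 * w ^ 2 * z ^ 2) * hP + (1 + P * h * w * z) * hw)
  have uF : IsUnit F0 := s5 ▸ (uρ.mul uk).mul ugg
  have t1 : (1 - (4 + 2 * r)) * (2 * D0 - P * X') = ρ * (3 - 2 * r) * e *
      (-N * (4 + 2 * r) * (3 * g1 - g4) + 6 * N * g1 + 2 * (N + 1) * g4 - 2 * h4) := by
    linear_combination 3 * J1 - J4 + (1 - (4 + 2 * r)) * (P * X' * h2 + (P * X' - 2 * P * Y') * h3)
  have t1' : (-N * (4 + 2 * r) * (3 * g1 - g4) + 6 * N * g1 + 2 * (N + 1) * g4 - 2 * h4) =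
      (2 + 2 * r) * g - 2 * r * P * g - 2 * (P * w) := by
    have e1 : 3 * g1 - g4 = 2 * g := by linear_combination 3 * hg1 - hg4
    have e2 : P * g1 = P * g := by linear_combination P * hg1 + h * z * hP
    have e3 : P * g4 = P * g := by linear_combination P * hg4 + 3 * h * z * hP
    linear_combination (-N * (4 + 2 * r) - 1) * e1 + 3 * e2 + e3 - 2 * hh4 +
      ((4 + 2 * r) * g - 3 * g1 - g4) * hN
  have s6 : (1 - e) * F0 = 2 * h ^ 2 * (P * X) := by
    linear_combination I23 + ((-h ^ 2 - h) * X + Y) * s3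
  have t2 : (1 - (8 + 4 * r)) * F0 * ((e - 1) * D0 + 2 * h ^ 2 * (P * X')) =
      h ^ 2 * (P * ((8 + 4 * r) * F0 ^ 2 - L)) := by
    have : -(P * h ^ 2) * π2 * π3 * L = -(h ^ 2 * P * L) := by
      linear_combination -h ^ 2 * π3 * L * p2 - h ^ 2 * L * p3
    rw [this] at W
    have e4 : (e - 1) * F0 = -(2 * h ^ 2 * (P * X)) := by linear_combination -s6
    rw [show (1 - (8 + 4 * r)) * F0 * ((e - 1) * D0 + 2 * h ^ 2 * (P * X')) =
      (1 - (8 + 4 * r)) * ((e - 1) * F0 * D0 + 2 * h ^ 2 * (P * X') * F0) by ring, e4]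
    generalize (8 + 4 * r) = l at W ⊢
    linear_combination W + (-2 * F0 * X * h ^ 3 * l - 4 * F0 * X * h ^ 4 * l +
      2 * F0 * Y * h ^ 2 * l - 2 * P * X * Y * h ^ 3 * l - 4 * P * X * Y * h ^ 4 * l +
      P * X ^ 2 * h ^ 4 * l + 4 * P * X ^ 2 * h ^ 5 * l + 3 * P * X ^ 2 * h ^ 6 * l +
      P * Y ^ 2 * h ^ 2 * l + 2 * X * Y' * h ^ 2 - 2 * X * Y' * h ^ 2 * l - 2 * X' * Y * h ^ 2 +
      2 * X' * Y * h ^ 2 * l) * hP
  have u1 : P * ((8 + 4 * r) * F0 ^ 2 - L) =
      (1 - (8 + 4 * r)) * F0 * (4 * (P * ρ * (7 * r - 12) * (g + w))) := by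
    rw [s5]
    linear_combination (-224 * P * g * r * w * ρ ^ 2 + 328 * P * g * w * ρ ^ 2 -
      208 * P * g ^ 2 * r * ρ ^ 2 + 312 * P * g ^ 2 * ρ ^ 2) * hr + (-1) * hL +
      (12 * r * ρ ^ 2 - 24 * ρ ^ 2) * hw' + (8 - 4 * r) * hρ
  have t3 : (e - 1) * D0 + 2 * h ^ 2 * (P * X') = h ^ 2 * (4 * (P * ρ * (7 * r - 12) * (g + w))) :=
    (ul.mul uF).mul_left_cancel (by linear_combination t2 + h ^ 2 * u1)
  have t4 : e * (2 * D0) = 2 * D0 - P * X' + 2 * (P * ρ * (7 * r - 12) * (g + w)) := by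
    linear_combination 2 * t3 + (2 * h + 1) * (2 * (P * ρ * (7 * r - 12) * (g + w)) - P * X') * h2
  refine u2.mul_left_cancel (uη.mul_left_cancel (ue.mul_left_cancel ?_))
  rw [t1'] at t1
  linear_combination (1 - (4 + 2 * r)) * t4 + t1 + (4 * P * e * g * ρ + 44 * P * e * w * ρ -
    28 * P * g * ρ - 28 * P * w * ρ + 8 * e * g * ρ) * hr +
    (-6 * g * r * ρ + 12 * g * ρ - 6 * r * w * ρ + 12 * w * ρ) * s3

theorem alg_K {P h s K x y τ κ v ρ z G1 G4 a w : A} (hP : P ^ 2 = 0) (h2 : 2 * h = 1)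
    (hs : s ^ 2 = -3) (hK : K = x + τ * y * s) (hxy : x ^ 2 + 3 * y ^ 2 = P) (hτ : τ ^ 2 = 1)
    (hκ : κ ^ 2 = 1) (hv : 3 * y * v = 1) (hu : ρ * s = κ * τ + P * z) (hG : G1 = K * (1 + P * a))
    (hw : G1 * w = 1) (hg : 3 * G1 - G4 = K * (3 - (ρ * s) ^ 2)) :
    ρ * (h * (3 * G1 - G4)) = κ * (2 * y - h * (P * v)) ∧ ρ * (P * w) = -(h * κ * (P * v)) := by
  have uK : IsUnit K := IsUnit.of_mul_eq_one ((1 + P * a) * w) (by
    linear_combination hw - w * hG)
  have k1 : K * (x - τ * y * s) = P := by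
    linear_combination (x - τ * y * s) * hK + hxy - τ ^ 2 * y ^ 2 * hs + 3 * y ^ 2 * hτ
  have k2 : P * (x - τ * y * s) = 0 := uK.mul_left_cancel (by linear_combination P * k1 + hP)
  have k3 : P * K = 2 * τ * y * s * P := by linear_combination P * hK + k2
  have k4 : x - τ * y * s = -(h * s * τ * (P * v)) := uK.mul_left_cancel (by
    linear_combination k1 + h * s * τ * v * k3 + (2 * h * τ ^ 2 * y * v * P) * hs -
      (6 * h * y * v * P) * hτ - 3 * y * v * P * h2 - P * hv)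
  have k5 : K = s * τ * (2 * y - h * (P * v)) := by linear_combination hK + k4
  have k6 : (κ * τ) ^ 2 = 1 := by linear_combination τ ^ 2 * hκ + hτ
  have k7 : ρ * s * (3 - (ρ * s) ^ 2) = 2 * (κ * τ) := by
    rw [hu]
    generalize κ * τ = σ at k6
    linear_combination (-σ - 3 * P * z) * k6 - (3 * σ * z ^ 2 + P * z ^ 3) * hP
  have k8 : ρ * (h * (3 * G1 - G4)) = κ * (2 * y - h * (P * v)) := by
    rw [hg, k5]
    linear_combination h * τ * (2 * y - h * (P * v)) * k7 +
      κ * τ ^ 2 * (2 * y - h * (P * v)) * h2 + κ * (2 * y - h * (P * v)) * hτ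
  refine ⟨k8, ?_⟩
  have k9 : P * (ρ * s) = P * (κ * τ) := by linear_combination P * hu + z * hP
  have k10 : P * G1 = 2 * τ * y * s * P := by linear_combination P * hG + k3 + K * a * hP
  have uG : IsUnit G1 := IsUnit.of_mul_eq_one w hw
  have us : IsUnit s := IsUnit.of_mul_eq_one (-(s * y * v)) (by
    linear_combination -(y * v) * hs + hv)
  refine (uG.mul us).mul_left_cancel ?_
  linear_combination ρ * P * s * hw + k9 + h * κ * s * v * k10 + (2 * h * κ * τ * y * v * P) * hs -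
    3 * κ * τ * y * v * P * h2 - κ * τ * P * hv

theorem alg_G {P h d m q T K W a C1 C4 H1 H2 H3 H4 f : A} (hP : P ^ 2 = 0) (h2 : 2 * h = 1)
    (h3 : 3 * d = 1) (hm : P = 6 * m + 1) (hT : P * T = P) (haf : a * f = 1)
    (hW : W * f = (1 + P * (2 * q)) * (1 + 5 * m * (P * (2 * q)))) (ha : a ^ 3 * (1 + P * q) = 1)
    (D1 : W * (C1 * (1 + P * (2 * m * H2 - 2 * m * H1))) = -K)
    (D4 : C4 * (1 + P * (4 * m * H4 - 3 * m * H3 - m * H1)) = -K) :
    -a * (C1 * (1 + P * (-d * (H2 - H1) - -(h * d) * H1))) = K * (1 + P * (h * d * H1 - d * q)) ∧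
    3 * (-a * (C1 * (1 + P * (-d * (H2 - H1) - -(h * d) * H1)))) -
      -T * a ^ 3 * (C4 * (1 + P * (-2 * d * (H4 - H1) - -h * H3))) = K * (3 - T) := by
  have m1 : P * m = -(h * d * P) := by
    linear_combination -(h * d * P) * hm + h * d * hP - 3 * d * m * P * h2 - m * P * h3
  have uf : IsUnit f := IsUnit.of_mul_eq_one a (by linear_combination haf)
  have m2 : a = W * (1 - d * (P * q)) := uf.mul_right_cancel (by
    linear_combination haf - (1 - d * (P * q)) * hW - 10 * q * m1 + 5 * d * q * P * h2 +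
      2 * q * P * h3 - (20 * m * q ^ 2 - 2 * d * q ^ 2 - 10 * d * m * q ^ 2 -
        20 * d * m * P * q ^ 3) * hP)
  have m3 : a ^ 3 = 1 - P * q := by linear_combination (1 - P * q) * ha + a ^ 3 * q ^ 2 * hP
  have m4 : C1 * (1 + P * (-d * (H2 - H1) - -(h * d) * H1)) =
      C1 * (1 + P * (2 * m * H2 - 2 * m * H1)) * (1 + P * (h * d * H1)) := by
    linear_combination -C1 * (2 * H2 - 2 * H1) * m1 + C1 * d * P * (H2 - H1) * h2 -
      C1 * (2 * m * H2 - 2 * m * H1) * (h * d * H1) * hP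
  have m5 : C4 * (1 + P * (-2 * d * (H4 - H1) - -h * H3)) =
      C4 * (1 + P * (4 * m * H4 - 3 * m * H3 - m * H1)) * (1 + P * (h * H1)) := by
    linear_combination -C4 * (4 * H4 - 3 * H3 - H1) * m1 +
      C4 * d * P * (2 * H4 - 2 * H1) * h2 + C4 * h * P * (H1 - H3) * h3 -
      C4 * (4 * m * H4 - 3 * m * H3 - m * H1) * (h * H1) * hP
  have g1 : -a * (C1 * (1 + P * (-d * (H2 - H1) - -(h * d) * H1))) =
      K * (1 + P * (h * d * H1 - d * q)) := by
    rw [m4, m2]
    linear_combination -(1 - d * (P * q)) * (1 + P * (h * d * H1)) * D1 -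
      K * d * q * h * d * H1 * hP
  refine ⟨g1, ?_⟩
  rw [g1, m5, D4, m3]
  linear_combination K * P * (h * H1 - q) * h3 - K * (h * H1 - q) * hT + K * T * q * h * H1 * hP

end Pool.Agent.MP_d636e9_nt

end MrgPart2

-- ======== part 3: formerly Pool.Agent.MP_d636e9_nt.Hyp
section MrgPart3

/-! The truncated series `∑ binom(2k,k)^2 (λ / 16)^k` at `λ = 8 + 4 √3` modulo `p ^ 2`. -/

namespace Pool.Agent.MP_d636e9_nt

open Finset QuadraticAlgebra

variable {p : ℕ} [hp : Fact p.Prime]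

abbrev Q2 : Type := QuadraticAlgebra ℚ 3 0

abbrev Z2 (p : ℕ) : Type := QuadraticAlgebra (Zq p) 3 0

abbrev Rd2 (p : ℕ) (x : Q2) (r : Z2 p) : Prop := Red2 (p ^ 2) x r

def sF (p n : ℕ) (f : ℕ → Zq p) : Z2 p := evR (p ^ 2) (n + 1) fun k => t0 p k * f k

def sD (p n : ℕ) (f : ℕ → Zq p) : Z2 p := evR (p ^ 2) (n + 1) fun k => k * (t0 p k * f k)

abbrev al (p : ℕ) : Zq p →+* Z2 p := algebraMap (Zq p) (Z2 p)

theorem omega_sq {R : Type} [CommRing R] : (omega : QuadraticAlgebra R 3 0) ^ 2 = 3 := by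
  rw [sq, omega_mul_omega_eq_mk]
  ext <;> simp

theorem red_F {n : ℕ} (hn : p = 2 * n + 1) {b c : ℚ} {b' c' : Zq p}
    (hb : Rd p b (iv p 2 + b' * p)) (hc' : Rd p c (1 + c' * p)) :
    Rd2 p (ev omega (n + 1) (hc n b c)) (sF p n 1 + p * (al p b' - al p (iv p 2)) * sF p n (hA p) +
      -(p * al p c') * sF p n (hB p)) ∧
    Rd2 p (ev omega (n + 1) fun k => k * hc n b c k) (sD p n 1 +
      p * (al p b' - al p (iv p 2)) * sD p n (hA p) + -(p * al p c') * sD p n (hB p)) := by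
  constructor
  · have h := red_ev (red_hc hn hb hc')
    rw [evR_lin] at h
    simpa only [sF, map_mul, map_sub, map_neg, map_natCast, Pi.one_apply, mul_one] using h
  · have h := red_ev (B := n + 1) (g := fun k => ((k : Zq p) * t0 p k + ((p : Zq p) * (b' - iv p 2)) *
      ((k : Zq p) * (t0 p k * hA p k)) + (-((p : Zq p) * c')) * ((k : Zq p) * (t0 p k * hB p k)) :
        Zq p))
      fun k hk => ((Red.natCast k).mul (red_hc hn hb hc' k hk)).congr rfl (by ring)
    rw [evR_lin] at h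
    simpa only [sD, map_mul, map_sub, map_neg, map_natCast, Pi.one_apply, mul_one] using h

omit hp in
theorem hc_sq (n k : ℕ) : hc n (-n) 1 k = (n.choose k : ℚ) ^ 2 := by
  induction k with
  | zero => simp [hc]
  | succ k ih =>
    have h2 : (n.choose (k + 1) : ℚ) = n.choose k * ((n : ℚ) - k) / (k + 1) := by
      rw [eq_div_iff (by positivity), choose_succ_cast]
    rw [hc_succ, ih, h2]
    field_simp
    ring

theorem hyp_side {m : ℕ} (hm : p = 6 * m + 1) {G1 G4 : Zq p} (r1 : Rd p (g1 m) G1)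
    (r4 : Rd p (g4 (3 * m)) G4) {w : Zq p} (hw : G1 * w = 1) :
    (Even m → (sF p (3 * m) 1).im = 0) ∧
    (∀ j, 3 * m = 2 * j + 3 → ∀ H4 : Zq p, Rd p (h4 (3 * m)) H4 → G4 * H4 = p → p * H4 = 0 →
      (-3 : ZMod p) ^ (3 * m) = 1 →
      (sF p (3 * m) 1).im = -2 * ((-3) ^ (j + 1) * (iv p 2 * (3 * G1 - G4))) ∧
      (sD p (3 * m) 1).im = 3 * ((-3) ^ (j + 1) * (iv p 2 * (3 * G1 - G4))) +
        11 * ((-3) ^ (j + 1) * (p * w))) := by
  have hm0 : 0 < m := by
    rcases Nat.eq_zero_or_pos m with rfl | h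
    · exact absurd (hm ▸ hp.out) (by decide)
    · exact h
  obtain ⟨n, hn⟩ : ∃ n, n = 3 * m := ⟨_, rfl⟩
  have hpn : p = 2 * n + 1 := by omega
  have hpq : (p : ℚ) = 6 * m + 1 := by exact_mod_cast hm
  have hnq : (n : ℚ) = 3 * m := by exact_mod_cast hn
  have h2 : (2 : Zq p) * iv p 2 = 1 := by exact_mod_cast mul_iv (p := p) (a := 2) two_pos (by omega)
  have h3 : (3 : Zq p) * iv p 3 = 1 := by
    exact_mod_cast mul_iv (p := p) (a := 3) three_pos (by omega)
  have rh : Rd p (1 / 2) (iv p 2) := (Red.one.div (Red.ofNat 2) h2).congr rfl (one_mul _)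
  have rd : Rd p (1 / 3) (iv p 3) := (Red.one.div (Red.ofNat 3) h3).congr rfl (one_mul _)
  have rp : Rd p p p := Red.natCast p
  have rb : ∀ {x : ℚ} {x' : Zq p}, Rd p x x' → Rd p (1 / 2 + x * p) (iv p 2 + x' * p) :=
    fun hx => rh.add (hx.mul rp)
  have rc : ∀ {x : ℚ} {x' : Zq p}, Rd p x x' → Rd p (1 + x * p) (1 + x' * p) :=
    fun hx => Red.one.add (hx.mul rp)
  have rc1 : Rd p (-2 * n) (1 + -1 * p) :=
    (rc Red.one.neg).congr (by rw [hpq, hnq]; ring) rfl
  have rb2 : Rd p (-n - (2 * n + 1) / 4) (iv p 2 + (-3 * iv p 2 ^ 2) * p) :=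
    (rb ((Red.ofNat 3).neg.mul (rh.pow 2))).congr (by rw [hpq, hnq]; ring) rfl
  have rb3 : Rd p (-n + (2 * n + 1) / 4) (iv p 2 + (-iv p 2 ^ 2) * p) :=
    (rb (rh.pow 2).neg).congr (by rw [hpq, hnq]; ring) rfl
  obtain ⟨f1, d1⟩ := red_F hpn (b := 1 / 6 - 2 * m) (c := 2 * (1 / 6 - 2 * m))
    ((rb rd.neg).congr (by rw [hpq]; ring) rfl)
    ((rc ((Red.ofNat 2).neg.mul rd)).congr (by rw [hpq]; ring) rfl)
  obtain ⟨f4, d4⟩ := red_F hpn (b := -2 * n - 1 / 2) (c := 2 * (-2 * n - 1 / 2))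
    ((rb Red.one.neg).congr (by rw [hpq, hnq]; ring) rfl)
    ((rc (Red.ofNat 2).neg).congr (by rw [hpq, hnq]; ring) rfl)
  obtain ⟨f2, d2⟩ := red_F hpn rb2 rc1
  obtain ⟨f3, d3⟩ := red_F hpn rb3 rc1
  simp only [map_neg, map_mul, map_pow, map_one, map_ofNat] at f1 d1 f4 d4 f2 d2 f3 d3
  have hξ : 3 * (4 + 2 * omega : Q2) ^ 2 = 4 * (1 - (4 + 2 * omega)) ^ 2 := by
    linear_combination (-4) * omega_sq (R := ℚ)
  obtain ⟨q1, q1'⟩ := quad_special (n := n) (b := 1 / 6 - 2 * m) (fun i _ => by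
    have := third_ne (4 * m - 1 - i)
    push_cast at this
    intro h
    exact this (by linear_combination -h)) (4 + 2 * omega : Q2) hξ
  obtain ⟨q4, q4'⟩ := quad_special (n := n) (b := -2 * n - 1 / 2) (fun i hi => by
    have : (i : ℚ) < n := by exact_mod_cast hi
    have : (0 : ℚ) ≤ n := by positivity
    linarith) (4 + 2 * omega : Q2) hξ
  rw [show 2 * (4 + 2 * omega : Q2) = 8 + 4 * omega by ring] at q1 q1' q4 q4'
  rw [show (1 / 6 - 2 * m + 1 / 2 : ℚ) = 2 / 3 - 2 * m by ring] at q1 q1'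
  rw [show (-2 * n - 1 / 2 + 1 / 2 : ℚ) = -2 * n by ring] at q4 q4'
  rw [G4_eq] at q4 q4'
  rw [DG4_eq] at q4'
  have e1 : G n (2 / 3 - 2 * m) = g1 m := by rw [hn, G1_eq]
  have e2 : DG n (2 / 3 - 2 * m) = n * g1 m := by rw [hn, DG1_eq]; push_cast; ring
  rw [e1] at q1 q1'
  rw [e2] at q1'
  rw [← hn] at r4 ⊢
  have rξ : Rd2 p (4 + 2 * omega) (4 + 2 * omega) :=
    (Red2.ofNat 4).add ((Red2.ofNat 2).mul Red2.omega)
  have rE := (Red2.one.sub rξ).pow n
  have rα : Rd2 p (2 + omega) (2 + omega) := (Red2.ofNat 2).add Red2.omega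
  have I1 := f1.unique (q1 ▸ rE.mul (Red2.alg r1))
  have I4 := f4.unique (q4 ▸ rE.mul (Red2.alg r4))
  have hP : (p : Z2 p) ^ 2 = 0 := by
    have := congrArg (al p) (P_sq (p := p))
    simpa using this
  have h2' : 2 * al p (iv p 2) = 1 := by
    have := congrArg (al p) h2
    rwa [map_mul, map_ofNat, map_one] at this
  have h3' : 3 * al p (iv p 3) = 1 := by
    have := congrArg (al p) h3
    rwa [map_mul, map_ofNat, map_one] at this
  have hw' : al p G1 * al p w = 1 := by rw [← map_mul, hw, map_one]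
  have hr := omega_sq (R := Zq p)
  have uα : IsUnit (2 + omega : Z2 p) := IsUnit.of_mul_eq_one (2 - omega) (by
    linear_combination -hr)
  have u3 : IsUnit (-3 : Z2 p) := IsUnit.of_mul_eq_one (-al p (iv p 3)) (by linear_combination h3')
  have hη : (1 - (4 + 2 * omega : Z2 p)) ^ 2 = -3 * -(2 + omega) ^ 2 := by
    linear_combination hr
  constructor
  · intro hev
    obtain ⟨j, hj⟩ : ∃ j, n = 2 * j + 2 := by
      obtain ⟨i, hi⟩ := hev
      exact ⟨3 * i - 1, by omega⟩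
    have hrat := ratio_even (omega_sq (R := ℚ)) j
    rw [← hj] at hrat
    have I23 := f2.unique (hrat ▸ ((rα.pow 2).neg.pow (j + 1)).mul f3)
    have hE : (1 - (4 + 2 * omega : Z2 p)) ^ n = (-3) ^ (j + 1) * (-(2 + omega) ^ 2) ^ (j + 1) := by
      rw [hj, show 2 * j + 2 = 2 * (j + 1) by ring, pow_mul, hη, mul_pow]
    have ue := (uα.pow 2).neg.pow (j + 1)
    obtain ⟨-, hF⟩ := alg_F hP h2' h3' (hE ▸ (u3.pow _).mul ue) (IsUnit.of_mul_eq_one _ hw')
      I1 I4 I23
    have hF' : sF p n 1 = al p ((-3) ^ (j + 1) * (iv p 2 * (3 * G1 - G4))) := by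
      refine ue.mul_left_cancel ?_
      rw [hF, hE]
      simp only [map_mul, map_pow, map_neg, map_sub, map_ofNat]
      ring
    rw [hF']
    rfl
  · intro j hj H4 rH hh hh' hT
    have hrat := ratio_odd (omega_sq (R := ℚ)) j
    rw [← hj] at hrat
    have I23 := f2.unique (hrat ▸ (((rα.pow 2).neg.pow (j + 1)).mul (rα.pow 2)).mul f3)
    have J1 := ((Red2.one.sub rξ).mul d1).unique (q1' ▸ rE.mul
      ((((Red2.natCast n).neg.mul rξ).mul (Red2.alg r1)).add
        ((Red2.ofNat 2).mul (Red2.alg ((Red.natCast n).mul r1)))))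
    have J4 := ((Red2.one.sub rξ).mul d4).unique (q4' ▸ rE.mul
      ((((Red2.natCast n).neg.mul rξ).mul (Red2.alg r4)).add
        ((Red2.ofNat 2).mul (Red2.alg (rH.sub (((Red.natCast n).add Red.one).mul r4))))))
    have rμ : Rd p ((2 * n + 1) / 4) (p * iv p 2 ^ 2) :=
      (rp.mul (rh.pow 2)).congr (by rw [hpq, hnq]; ring) rfl
    have p2 := red_hc hpn rb2 rc1 n (by omega)
    have p3 := red_hc hpn rb3 rc1 n (by omega)
    have p5 := red_hc hpn (b := -n) (c := 1) ((rb rh.neg).congr (by rw [hpq, hnq]; ring) rfl)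
      ((rc Red.zero).congr (by ring) rfl) n (by omega)
    rw [hc_sq, Nat.choose_self, Nat.cast_one, one_pow] at p5
    have p5' := p5.unique Red.one
    have W := (((Red2.one.sub red_lam).mul ((f2.mul d3).sub (f3.mul d2))).sub
      (((Red2.alg rμ).mul red_lam).mul (f2.mul f3))).unique
      (wron (omega : Q2) n ▸ (Red2.alg ((rμ.neg.mul p2).mul p3)).mul (red_lam.pow (2 * n + 1)))
    have hE : (1 - (4 + 2 * omega : Z2 p)) ^ n = (-3) ^ (j + 1) * (3 - 2 * omega) *
        ((-(2 + omega) ^ 2) ^ (j + 1) * (2 + omega) ^ 2) := by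
      rw [hj, show 2 * j + 3 = 2 * (j + 1) + 1 by ring, pow_succ, pow_mul, hη, mul_pow]
      linear_combination ((-3) ^ (j + 1) * (-(2 + omega) ^ 2) ^ (j + 1) * (2 * omega + 5)) * hr
    rw [hE] at I1 I4 J1 J4
    have hPz := P_sq (p := p)
    generalize hπ2 : t0 p n + _ + _ = π2 at p2 W
    generalize hπ3 : t0 p n + _ + _ = π3 at p3 W
    have k0 : p * t0 p n = p := by
      linear_combination p * p5' + (2 * iv p 2 * (t0 p n * hA p n)) * hPz
    have k2 : (p : Z2 p) * al p π2 = p := by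
      have : p * π2 = p := by
        rw [← hπ2]
        linear_combination k0 + ((-3 * iv p 2 ^ 2 - iv p 2) * (t0 p n * hA p n) +
          t0 p n * hB p n) * hPz
      simpa only [map_mul, map_natCast] using congrArg (al p) this
    have k3 : (p : Z2 p) * al p π3 = p := by
      have : p * π3 = p := by
        rw [← hπ3]
        linear_combination k0 + ((-iv p 2 ^ 2 - iv p 2) * (t0 p n * hA p n) +
          t0 p n * hB p n) * hPz
      simpa only [map_mul, map_natCast] using congrArg (al p) this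
    have k4 : (p : Z2 p) * 4 ^ (2 * n + 1) = p * 4 := by
      have : (p : Zq p) * 4 ^ p = p * 4 := P_mul_iff.2 (by rw [map_pow, ZMod.pow_card])
      rw [← hpn]
      simpa only [map_mul, map_natCast, map_pow, map_ofNat] using congrArg (al p) this
    have k5 : (p : Z2 p) * (-3 * ((-3) ^ (j + 1)) ^ 2) = p := by
      have : (p : Zq p) * (-3) ^ n = p * 1 := P_mul_iff.2 (by
        rw [map_pow, map_neg, map_ofNat, map_one, hT])
      have := congrArg (al p) this
      simp only [map_mul, map_natCast, map_pow, map_ofNat, map_neg, mul_one] at this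
      have e : (-3 : Z2 p) ^ (2 * j + 3) = -3 * ((-3) ^ (j + 1)) ^ 2 := by
        rw [show 2 * j + 3 = (j + 1) * 2 + 1 by ring, pow_succ', pow_mul]
      rw [← e, ← hj, this]
    simp only [map_mul, map_neg, map_sub, map_add, map_pow, map_natCast, map_one] at J1 J4 W
    obtain ⟨hF, hD⟩ := alg_D hP h2' h3' hr (N := (n : Z2 p))
      (by exact_mod_cast congrArg (Nat.cast (R := Z2 p)) hpn)
      (((uα.pow 2).neg.pow (j + 1)).mul (uα.pow 2)) (u3.pow (j + 1)) hw' I1 I4 I23 J1 J4 W k2 k3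
      (fun he => by
        have a1 : (2 + omega : Z2 p) ^ (2 * n + 1) * (2 + omega) =
            ((-(2 + omega) ^ 2) ^ (j + 1) * (2 + omega) ^ 2) ^ 2 := by
          have b1 : ∀ x : Z2 p, x ^ (2 * (2 * j + 3) + 1) * x = ((-x ^ 2) ^ (j + 1) * x ^ 2) ^ 2 := by
            intro x
            rw [mul_pow, ← pow_mul (-x ^ 2), mul_comm (j + 1) 2, pow_mul (-x ^ 2), neg_sq]
            ring
          rw [hj, b1]
        rw [show (8 + 4 * omega : Z2 p) = 4 * (2 + omega) by ring, mul_pow]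
        generalize (-(2 + omega : Z2 p) ^ 2) ^ (j + 1) * (2 + omega) ^ 2 = e at he a1
        generalize (2 + omega : Z2 p) ^ (2 * n + 1) = a at a1
        linear_combination a * k4 + 4 * p * (2 - omega) * a1 + 4 * (2 - omega) * (e + 1) * he +
          4 * p * a * hr)
      k5 (by simpa only [map_mul, map_natCast] using congrArg (al p) hh)
      (by simpa only [map_mul, map_natCast, map_zero] using congrArg (al p) hh')
    have hF' : sF p n 1 = al p (3 * ((-3) ^ (j + 1) * (iv p 2 * (3 * G1 - G4)))) +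
        al p (-2 * ((-3) ^ (j + 1) * (iv p 2 * (3 * G1 - G4)))) * omega := by
      rw [hF]
      simp only [map_mul, map_pow, map_neg, map_sub, map_ofNat]
      ring
    have hD' : sD p n 1 = al p (-5 * ((-3) ^ (j + 1) * (iv p 2 * (3 * G1 - G4))) -
        19 * ((-3) ^ (j + 1) * (p * w))) + al p (3 * ((-3) ^ (j + 1) * (iv p 2 * (3 * G1 - G4))) +
        11 * ((-3) ^ (j + 1) * (p * w))) * omega := by
      rw [hD]
      simp only [map_mul, map_pow, map_neg, map_sub, map_add, map_ofNat, map_natCast]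
      ring
    have him : ∀ x y : Zq p, (al p x + al p y * omega).im = y := fun x y => by simp
    rw [hF', hD', him, him]
    exact ⟨rfl, rfl⟩

end Pool.Agent.MP_d636e9_nt

end MrgPart3

-- ======== part 4: formerly Pool.Agent.MP_d636e9_nt.Teich
section MrgPart4

/-! The Teichmuller character and Jacobi sums modulo `p ^ 2`. -/

namespace Pool.Agent.MP_d636e9_nt

open Finset Polynomial

variable {p : ℕ} [hp : Fact p.Prime]

noncomputable def rho (p : ℕ) [Fact p.Prime] : ℤ_[p] →+* ZMod p :=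
  (red1 p).comp (PadicInt.toZModPow 2)

theorem rho_eq_zero {x : ℤ_[p]} : rho p x = 0 ↔ ‖x‖ < 1 := by
  constructor
  · intro h
    by_contra h1
    have h2 : IsUnit x := PadicInt.isUnit_iff.2 (le_antisymm x.norm_le_one (not_lt.1 h1))
    exact (h2.map (rho p)).ne_zero h
  · intro h
    obtain ⟨z, rfl⟩ := (PadicInt.norm_lt_one_iff_dvd x).1 h
    rw [map_mul, map_natCast, ZMod.natCast_self, zero_mul]

theorem exists_teich : ∃ ω : MulChar (ZMod p) ℤ_[p], ∀ t, rho p (ω t) = t := by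
  obtain ⟨g, hg⟩ := IsCyclic.exists_generator (α := (ZMod p)ˣ)
  obtain ⟨a, ha⟩ := ZMod.ringHom_surjective (rho p) g
  have hg1 := ZMod.pow_card_sub_one_eq_one g.ne_zero
  have hd : ‖(derivative (X ^ (p - 1) - 1 : ℤ_[p][X])).aeval a‖ = 1 := by
    refine le_antisymm (PadicInt.norm_le_one _) (not_lt.1 fun h => ?_)
    rw [← rho_eq_zero] at h
    simp only [derivative_sub, derivative_X_pow, derivative_one, sub_zero, map_mul, map_natCast,
      map_pow, aeval_X, ha] at h
    rcases mul_eq_zero.1 h with h | h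
    · exact red1_ne (by have := hp.out.two_le; omega) (by have := hp.out.pos; omega) h
    · exact pow_ne_zero _ g.ne_zero h
  obtain ⟨z, hz, hza, -⟩ := hensels_lemma (F := (X ^ (p - 1) - 1 : ℤ_[p][X])) (a := a) (by
    rw [hd, one_pow, ← rho_eq_zero]
    simp [ha, hg1])
  rw [hd, ← rho_eq_zero, map_sub, ha, sub_eq_zero] at hza
  simp only [map_sub, map_pow, aeval_X, map_one, sub_eq_zero] at hz
  have hu : IsUnit z := IsUnit.of_pow_eq_one hz (by have := hp.out.two_le; omega)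
  have hζ : hu.unit ∈ rootsOfUnity (Fintype.card (ZMod p)ˣ) ℤ_[p] := by
    rw [mem_rootsOfUnity, ZMod.card_units]
    ext
    simpa using hz
  refine ⟨MulChar.ofRootOfUnity hζ hg, fun t => ?_⟩
  by_cases ht : t = 0
  · rw [ht, MulChar.map_zero, map_zero]
  · obtain ⟨k, hk⟩ := (mem_powers_iff_mem_zpowers.2 (hg (Units.mk0 t ht)))
    have hk' : (g : ZMod p) ^ k = t := by simpa using congrArg Units.val hk
    rw [← hk', map_pow, map_pow, MulChar.ofRootOfUnity_spec, IsUnit.unit_spec, hza]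

theorem teich_pow_ne_one {ω : MulChar (ZMod p) ℤ_[p]} (hω : ∀ t, rho p (ω t) = t) {j : ℕ}
    (hj : ¬ (p - 1) ∣ j) : ω ^ j ≠ 1 := by
  intro h
  obtain ⟨g, hg⟩ := IsCyclic.exists_generator (α := (ZMod p)ˣ)
  have h1 := congrArg (fun χ : MulChar (ZMod p) ℤ_[p] => rho p (χ g)) h
  simp only [MulChar.pow_apply_coe, map_pow, hω, MulChar.one_apply_coe, map_one] at h1
  apply hj
  rw [← ZMod.card_units p, ← Nat.card_eq_fintype_card, ← orderOf_eq_card_of_forall_mem_zpowers hg,
    orderOf_dvd_iff_pow_eq_one]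
  ext
  simpa using h1

theorem char_pow_card {R : Type} [CommRing R] (ω : MulChar (ZMod p) R) {t : ZMod p} (ht : t ≠ 0) :
    ω t ^ (p - 1) = 1 := by
  rw [← map_pow, ZMod.pow_card_sub_one_eq_one ht, map_one]

theorem char_pow_p {R : Type} [CommRing R] (ω : MulChar (ZMod p) R) (t : ZMod p) :
    ω t ^ p = ω t := by
  rw [← map_pow, ZMod.pow_card]

theorem teich_sum {ω : MulChar (ZMod p) ℤ_[p]} (hω : ∀ t, rho p (ω t) = t) {j : ℕ} (h0 : j ≠ 0) :
    ∑ t, ω t ^ j = if (p - 1) ∣ j then (p : ℤ_[p]) - 1 else 0 := by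
  split_ifs with hj
  · obtain ⟨k, rfl⟩ := hj
    rw [← sum_erase_add _ _ (mem_univ 0), MulChar.map_zero, zero_pow h0, add_zero,
      sum_congr rfl fun t ht => by rw [pow_mul, char_pow_card ω (ne_of_mem_erase ht), one_pow]]
    rw [sum_const, card_erase_of_mem (mem_univ _), card_univ, ZMod.card, nsmul_eq_mul, mul_one,
      Nat.cast_sub hp.out.pos, Nat.cast_one]
  · rw [← MulChar.sum_eq_zero_of_ne_one (teich_pow_ne_one hω hj)]
    exact sum_congr rfl fun t _ => (MulChar.pow_apply' _ h0 t).symm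

theorem teich_binom {ω : MulChar (ZMod p) ℤ_[p]} (hω : ∀ t, rho p (ω t) = t) {u a e : ℕ}
    (hu : u ≠ 0) (hua : u + a = p - 1) (hev : Even (p - 1)) (he : e < a + 2 * (p - 1)) :
    ∑ t, ω t ^ u * (1 - ω t) ^ e =
      ((p : ℤ_[p]) - 1) * (-1) ^ a * (e.choose a + e.choose (a + (p - 1))) := by
  have h1 : ∀ t, ω t ^ u * (1 - ω t) ^ e =
      ∑ k ∈ range (e + 1), (-1) ^ k * (e.choose k : ℤ_[p]) * ω t ^ (u + k) := by
    intro t
    rw [sub_eq_neg_add, add_pow, mul_sum]
    exact sum_congr rfl fun k _ => by rw [neg_pow]; ring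
  simp only [h1]
  rw [sum_comm]
  simp only [← mul_sum]
  have hp1 : 0 < p - 1 := by omega
  rw [sum_eq_add a (a + (p - 1)) (by omega)]
  · rw [teich_sum hω (by omega), teich_sum hω (by omega), if_pos (by rw [hua]),
      if_pos (by rw [← add_assoc, hua]; simp), pow_add, hev.neg_one_pow]
    ring
  · intro c hc ⟨h2, h3⟩
    rw [teich_sum hω (by omega), if_neg, mul_zero]
    rintro ⟨k, hk⟩
    have hc' := mem_range.1 hc
    have : k < 3 := by
      by_contra h
      have : (p - 1) * 3 ≤ (p - 1) * k := Nat.mul_le_mul_left _ (by omega)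
      omega
    interval_cases k <;> omega
  · intro h
    rw [Nat.choose_eq_zero_of_lt (by simpa using h)]
    simp
  · intro h
    rw [Nat.choose_eq_zero_of_lt (by simpa using h)]
    simp

theorem teich_eq_pow {ω : MulChar (ZMod p) ℤ_[p]} (hω : ∀ t, rho p (ω t) = t) (t : ZMod p)
    {y : Zq p} (hy : red1 p y = t) : PadicInt.toZModPow 2 (ω t) = y ^ p := by
  rw [← char_pow_p, map_pow]
  exact pow_p_congr ((hω t).trans hy.symm)

theorem jacobi_mod {ω : MulChar (ZMod p) ℤ_[p]} (hω : ∀ t, rho p (ω t) = t) {u a b : ℕ}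
    (hua : u + (a + 1) = p - 1) (hev : Even (p - 1)) (hv : a + b + 2 < p - 1) :
    PadicInt.toZModPow 2 (jacobiSum (ω ^ u) (ω ^ (a + b + 2))) =
      -(-1) ^ (a + 1) * ((a + b + 2).choose (a + 1) : Zq p) * (1 + p * ((a + b + 2) *
        hB p (a + b + 2) - (b + 1) * hB p (b + 1) - (a + 1) * hB p (a + 1))) := by
  have hu : u ≠ 0 := by omega
  have hP := P_sq (p := p)
  have h1 : ∀ t, PadicInt.toZModPow 2 ((ω ^ u) t * (ω ^ (a + b + 2)) (1 - t)) =
      PadicInt.toZModPow 2 (((a : ℤ_[p]) + (b : ℤ_[p]) + 2) *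
        (ω t ^ u * (1 - ω t) ^ (a + b + 1 + p)) -
        ((a : ℤ_[p]) + (b : ℤ_[p]) + 1) * (ω t ^ u * (1 - ω t) ^ (a + b + 2)) : ℤ_[p]) := by
    intro t
    rw [MulChar.pow_apply' _ hu, MulChar.pow_apply' _ (by omega)]
    simp only [map_mul, map_pow, map_sub, map_add, map_natCast, map_one, map_ofNat]
    rw [teich_eq_pow hω (1 - t) (y := 1 - PadicInt.toZModPow 2 (ω t)) (by
      rw [map_sub, map_one]; exact congrArg _ (hω t))]
    generalize (PadicInt.toZModPow 2 (ω t) : Zq p) ^ u = x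
    generalize 1 - (PadicInt.toZModPow 2 (ω t) : Zq p) = y
    obtain ⟨q, hq⟩ := exists_of_red1 (x := y ^ p) (y := y) (by rw [map_pow, ZMod.pow_card])
    rw [pow_add y (a + b + 1) p, hq, pow_add_P hP]
    push_cast
    ring
  rw [jacobiSum, map_sum, sum_congr rfl fun t _ => h1 t, ← map_sum, sum_sub_distrib, ← mul_sum,
    ← mul_sum, teich_binom hω hu hua hev (by omega), teich_binom hω hu hua hev (by omega),
    Nat.choose_eq_zero_of_lt (show a + b + 2 < a + 1 + (p - 1) by omega),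
    Nat.choose_symm_of_eq_add (show a + b + 1 + p = a + 1 + (p - 1) + (b + 1) by omega)]
  simp only [map_mul, map_pow, map_sub, map_add, map_natCast, map_one, map_ofNat, map_neg]
  have e1 := choose_add_P (p := p) b (a + 1) (by omega)
  have e2 := choose_add_P (p := p) a (b + 1) (by omega)
  rw [show b + (a + 1) = a + b + 1 by ring] at e1
  rw [show a + (b + 1) = a + b + 1 by ring] at e2
  have c1 := congrArg (Nat.cast (R := Zq p)) (Nat.choose_mul_succ_eq (a + b + 1) (a + 1))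
  have c2 := congrArg (Nat.cast (R := Zq p)) (Nat.choose_mul_succ_eq (a + b + 1) (b + 1))
  rw [show a + b + 1 + 1 - (a + 1) = b + 1 by omega] at c1
  rw [show a + b + 1 + 1 - (b + 1) = a + 1 by omega,
    Nat.choose_symm_of_eq_add (show a + b + 1 + 1 = (b + 1) + (a + 1) by omega)] at c2
  have v1 := mul_iv (p := p) (a := a + 1) (by omega) (by omega)
  have v2 := mul_iv (p := p) (a := b + 1) (by omega) (by omega)
  have v3 := mul_iv (p := p) (a := a + b + 1 + 1) (by omega) (by omega)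
  rw [e1, e2, show hB p (a + b + 2) = hB p (a + b + 1) + iv p (a + b + 1 + 1) from
    sum_range_succ _ _, show hB p (a + 1) = hB p a + iv p (a + 1) from sum_range_succ _ _,
    show hB p (b + 1) = hB p b + iv p (b + 1) from sum_range_succ _ _]
  push_cast at c1 c2 v1 v2 v3 ⊢
  generalize ((a + b + 1).choose (a + 1) : Zq p) = C1 at *
  generalize ((a + b + 1).choose (b + 1) : Zq p) = C2 at *
  generalize ((a + b + 2).choose (a + 1) : Zq p) = C at *
  generalize iv p (a + 1) = w1 at *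
  generalize iv p (b + 1) = w2 at *
  generalize iv p (a + b + 1 + 1) = w3 at *
  generalize hB p (a + b + 1) = H3
  generalize hB p a = H1
  generalize hB p b = H2
  generalize (-1 : Zq p) ^ (a + 1) = σ
  generalize (p : Zq p) = P at *
  generalize (a : Zq p) = A at *
  generalize (b : Zq p) = B at *
  linear_combination (P - 1) * σ * (1 + P * (H3 - H2)) * c1 + (P - 1) * σ * (1 + P * (H3 - H1)) * c2 +
    σ * C * P * (v3 - v1 - v2) + σ * C * ((B + 1) * (H3 - H2) + (A + 1) * (H3 - H1)) * hP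

end Pool.Agent.MP_d636e9_nt

end MrgPart4

-- ======== part 5: formerly Pool.Agent.MP_d636e9_nt.Jac
section MrgPart5

/-! The sextic Jacobi sums and the representation `p = x ^ 2 + 3 * y ^ 2`. -/

namespace Pool.Agent.MP_d636e9_nt

open Finset

section general

variable {F R : Type} [Field F] [Fintype F] [CommRing R]

theorem jacobi_swap {A B C : MulChar F R} (h : A * B * C = 1) :
    jacobiSum A B = A (-1) * jacobiSum A C := by
  have inv : Function.Involutive fun s : F => 1 - (1 - s)⁻¹ := fun s => by simp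
  rw [jacobiSum, jacobiSum, mul_sum, ← Equiv.sum_comp (inv.toPerm _)]
  refine sum_congr rfl fun s _ => ?_
  simp only [Function.Involutive.coe_toPerm, sub_sub_cancel]
  by_cases hs : 1 - s = 0
  · rw [hs, inv_zero, MulChar.map_zero, MulChar.map_zero]; simp
  · have h1 := congrArg (fun χ : MulChar F R => χ (1 - s)) h
    simp only [MulChar.mul_apply, MulChar.one_apply (IsUnit.mk0 _ hs)] at h1
    have hA : A (1 - s) * A (1 - s)⁻¹ = 1 := by rw [← map_mul, mul_inv_cancel₀ hs, map_one]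
    have hB : B (1 - s) * B (1 - s)⁻¹ = 1 := by rw [← map_mul, mul_inv_cancel₀ hs, map_one]
    rw [show 1 - (1 - s)⁻¹ = -1 * s * (1 - s)⁻¹ by field_simp; ring, map_mul, map_mul]
    linear_combination (-(A (-1) * A s * A (1 - s)⁻¹ * B (1 - s)⁻¹)) * h1 +
      A (-1) * A s * C (1 - s) * B (1 - s) * B (1 - s)⁻¹ * hA + A (-1) * A s * C (1 - s) * hB

theorem jacobi_dup [DecidableEq F] [IsDomain R] (hF : ringChar F ≠ 2) {A φ : MulChar F R}
    (hA : A ≠ 1) (hφ : ∀ t, φ t = (quadraticChar F t : R)) :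
    A 4 * jacobiSum A A = jacobiSum A φ := by
  have h2 : (2 : F) ≠ 0 := Ring.two_ne_zero hF
  have h1 : A 4 * jacobiSum A A = ∑ w : F, A (1 - w ^ 2) := by
    rw [jacobiSum, mul_sum, ← Equiv.sum_comp ((Equiv.mulLeft₀ 2 h2).trans (Equiv.subLeft 1))
      (fun w => A (1 - w ^ 2))]
    refine sum_congr rfl fun t _ => ?_
    rw [← map_mul, ← map_mul]
    congr 1
    simp only [Equiv.trans_apply, Equiv.mulLeft₀_apply, Equiv.subLeft_apply]
    ring
  have h3 : ∑ v : F, A (1 - v) = 0 := by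
    rw [← MulChar.sum_eq_zero_of_ne_one hA]
    exact (Equiv.subLeft 1).sum_comp A
  rw [h1, jacobiSum_comm, jacobiSum, ← add_zero (∑ x : F, φ x * A (1 - x)), ← h3,
    ← sum_add_distrib, ← sum_fiberwise univ (fun w : F => w ^ 2)]
  refine sum_congr rfl fun v _ => ?_
  rw [sum_congr rfl fun w hw => by rw [(mem_filter.1 hw).2], sum_const, nsmul_eq_mul, hφ]
  have h4 := congrArg (Int.cast (R := R)) (quadraticChar_card_sqrts hF v)
  rw [Set.toFinset_ofPred] at h4
  push_cast at h4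
  rw [h4]
  ring

end general

variable {p : ℕ} [hp : Fact p.Prime]

theorem ringChar_ne_two {m : ℕ} (hm : p = 6 * m + 1) : ringChar (ZMod p) ≠ 2 := by
  rw [ZMod.ringChar_zmod_n]; omega

theorem m_pos {m : ℕ} (hm : p = 6 * m + 1) : 0 < m := by
  rcases Nat.eq_zero_or_pos m with rfl | h
  · exact absurd (hm ▸ hp.out) (by decide)
  · exact h

theorem teich_quadratic {ω : MulChar (ZMod p) ℤ_[p]} (hω : ∀ t, rho p (ω t) = t) {m : ℕ}
    (hm : p = 6 * m + 1) (t : ZMod p) :
    ω t ^ (3 * m) = (quadraticChar (ZMod p) t : ℤ_[p]) := by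
  have hm0 := m_pos hm
  by_cases ht : t = 0
  · rw [ht, MulChar.map_zero, MulChar.map_zero, zero_pow (by omega), Int.cast_zero]
  have h1 : (ω t ^ (3 * m)) ^ 2 = (quadraticChar (ZMod p) t : ℤ_[p]) ^ 2 := by
    rw [← pow_mul, show 3 * m * 2 = p - 1 by omega, char_pow_card ω ht]
    exact_mod_cast (quadraticChar_sq_one ht).symm
  refine (sq_eq_sq_iff_eq_or_eq_neg.1 h1).resolve_right fun h => ?_
  have h2 := congrArg (rho p) h
  have h3 := quadraticChar_eq_pow_of_char_ne_two' (ringChar_ne_two hm) t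
  rw [ZMod.card, show p / 2 = 3 * m by omega] at h3
  rw [map_pow, hω, map_neg, map_intCast, h3] at h2
  have h4 : (2 : ZMod p) * t ^ (3 * m) = 0 := by linear_combination h2
  exact mul_ne_zero (Ring.two_ne_zero (ringChar_ne_two hm)) (pow_ne_zero _ ht) h4

theorem exists_sqrt_neg_three {ω : MulChar (ZMod p) ℤ_[p]} (hω : ∀ t, rho p (ω t) = t) {m : ℕ}
    (hm : p = 6 * m + 1) : ∃ s : ℤ_[p], s ^ 2 = -3 := by
  have hm0 := m_pos hm
  obtain ⟨g, hg⟩ := MulChar.ne_one_iff.1 (teich_pow_ne_one hω (j := 2 * m) (by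
    rw [show p - 1 = 6 * m by omega]
    exact Nat.not_dvd_of_pos_of_lt (by omega) (by omega)))
  rw [MulChar.pow_apply_coe] at hg
  have h1 : (ω g ^ (2 * m)) ^ 3 = 1 := by
    rw [← pow_mul, show 2 * m * 3 = p - 1 by omega, char_pow_card ω g.ne_zero]
  generalize ω g ^ (2 * m) = μ at hg h1
  have h2 : μ ^ 2 + μ + 1 = 0 :=
    (mul_eq_zero.1 (show (μ - 1) * (μ ^ 2 + μ + 1) = 0 by linear_combination h1)).resolve_left
      (sub_ne_zero.2 hg)
  exact ⟨2 * μ + 1, by linear_combination 4 * h2⟩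

theorem term_form {ω : MulChar (ZMod p) ℤ_[p]} (hω : ∀ t, rho p (ω t) = t) {m : ℕ}
    (hm : p = 6 * m + 1) {s : ℤ_[p]} (hs : s ^ 2 = -3) (t : ZMod p) :
    ∃ a b : ℤ, ω t ^ (5 * m) * (quadraticChar (ZMod p) (1 - t) - 1) = a + b * s ∧
      ω t ^ m * (quadraticChar (ZMod p) (1 - t) - 1) = a - b * s ∧
      (3 : ℤ) ∣ a - quadraticChar (ZMod p) t * (quadraticChar (ZMod p) (1 - t) - 1) := by
  have hm0 := m_pos hm
  by_cases ht : t = 0
  · exact ⟨0, 0, by simp [ht], by simp [ht], by simp [ht]⟩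
  by_cases ht1 : 1 - t = 0
  · have : t = 1 := (sub_eq_zero.1 ht1).symm
    exact ⟨-1, 0, by simp [this], by simp [this], by simp [this]⟩
  rcases quadraticChar_dichotomy ht1 with h | h
  · exact ⟨0, 0, by simp [h], by simp [h], by simp [h]⟩
  have h6 : ω t ^ (6 * m) = 1 := by
    rw [show 6 * m = p - 1 by omega, char_pow_card ω ht]
  have h1 : (ω t ^ (2 * m)) ^ 3 = 1 := by rw [← pow_mul, show 2 * m * 3 = 6 * m by ring, h6]
  have e1 : ω t ^ (5 * m) = quadraticChar (ZMod p) t * ω t ^ (2 * m) := by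
    rw [← teich_quadratic hω hm, ← pow_add]; congr 1; ring
  have e2 : ω t ^ m = quadraticChar (ZMod p) t * (ω t ^ (2 * m)) ^ 2 := by
    rw [← teich_quadratic hω hm, ← pow_mul, ← pow_add, show 3 * m + 2 * m * 2 = m + 6 * m by ring,
      pow_add, h6, mul_one]
  rw [e1, e2, h]
  generalize ω t ^ (2 * m) = ψ at h1
  generalize quadraticChar (ZMod p) t = q
  have h2 : (ψ - 1) * ((2 * ψ + 1 - s) * (2 * ψ + 1 + s)) = 0 := by
    linear_combination 4 * h1 - (ψ - 1) * hs
  have two : (2 : ℤ_[p]) ≠ 0 := two_ne_zero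
  rcases mul_eq_zero.1 h2 with h3 | h3
  · rw [sub_eq_zero.1 h3]
    exact ⟨-2 * q, 0, by push_cast; ring, by push_cast; ring, ⟨0, by ring⟩⟩
  rcases mul_eq_zero.1 h3 with h3 | h3
  · refine ⟨q, -q, by push_cast; linear_combination -q * h3, mul_left_cancel₀ two ?_, ⟨q, by ring⟩⟩
    push_cast
    linear_combination -q * (2 * ψ - 1 + s) * h3 - q * hs
  · refine ⟨q, q, by push_cast; linear_combination -q * h3, mul_left_cancel₀ two ?_, ⟨q, by ring⟩⟩
    push_cast
    linear_combination -q * (2 * ψ - 1 - s) * h3 - q * hs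

theorem jacobi_xy {ω : MulChar (ZMod p) ℤ_[p]} (hω : ∀ t, rho p (ω t) = t) {m : ℕ}
    (hm : p = 6 * m + 1) (hodd : Odd m) {s : ℤ_[p]} (hs : s ^ 2 = -3) :
    ∃ x y : ℤ, jacobiSum (ω ^ (5 * m)) (ω ^ (3 * m)) = x + y * s ∧ x ^ 2 + 3 * y ^ 2 = p ∧
      (3 : ℤ) ∣ x - 1 := by
  have hm0 := m_pos hm
  have hne : ∀ j, 0 < j → j < 6 → ω ^ (j * m) ≠ 1 := fun j h0 h6 => teich_pow_ne_one hω (by
    rw [show p - 1 = 6 * m by omega]
    exact Nat.not_dvd_of_pos_of_lt (by positivity) (by nlinarith))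
  choose a b h1 h2 h3 using term_form hω hm hs
  have key : ∀ j, 0 < j → j < 6 → jacobiSum (ω ^ (j * m)) (ω ^ (3 * m)) =
      ∑ t, ω t ^ (j * m) * (quadraticChar (ZMod p) (1 - t) - 1) := by
    intro j h0 h6
    have := MulChar.sum_eq_zero_of_ne_one (hne j h0 h6)
    rw [jacobiSum, ← sub_zero (∑ x, _), ← this, ← sum_sub_distrib]
    refine sum_congr rfl fun t _ => ?_
    rw [MulChar.pow_apply' _ (by positivity), MulChar.pow_apply' _ (by omega),
      teich_quadratic hω hm]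
    ring
  have k5 := key 5 (by norm_num) (by norm_num)
  have k1 := key 1 (by norm_num) (by norm_num)
  rw [sum_congr rfl fun t _ => h1 t, sum_add_distrib, ← sum_mul, ← Int.cast_sum,
    ← Int.cast_sum] at k5
  rw [one_mul, sum_congr rfl fun t _ => h2 t, sum_sub_distrib, ← sum_mul, ← Int.cast_sum,
    ← Int.cast_sum] at k1
  refine ⟨_, _, k5, ?_, ?_⟩
  · have h6 : ω ^ (6 * m) = 1 := by
      rw [show 6 * m = p - 1 by omega]
      ext t
      rw [MulChar.pow_apply_coe, char_pow_card ω t.ne_zero, MulChar.one_apply_coe]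
    have i5 : (ω ^ (5 * m))⁻¹ = ω ^ m := by
      rw [inv_eq_iff_mul_eq_one, ← pow_add, ← h6]; congr 1; ring
    have i3 : (ω ^ (3 * m))⁻¹ = ω ^ (3 * m) := by
      rw [inv_eq_iff_mul_eq_one, ← pow_add, ← h6]; congr 1; ring
    have inj : Function.Injective (algebraMap ℤ_[p] ℚ_[p]) := IsFractionRing.injective _ _
    have h := jacobiSum_mul_jacobiSum_inv (F := ZMod p) (F' := ℚ_[p])
      (by rw [ringChar.eq_zero, ZMod.ringChar_zmod_n]; omega)
      (χ := (ω ^ (5 * m)).ringHomComp (algebraMap ℤ_[p] ℚ_[p]))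
      (φ := (ω ^ (3 * m)).ringHomComp (algebraMap ℤ_[p] ℚ_[p]))
      ((MulChar.ringHomComp_ne_one_iff inj).2 (hne 5 (by norm_num) (by norm_num)))
      ((MulChar.ringHomComp_ne_one_iff inj).2 (hne 3 (by norm_num) (by norm_num)))
      (by
        rw [← MulChar.ringHomComp_mul, ← pow_add, show 5 * m + 3 * m = 6 * m + 2 * m by ring,
          pow_add, h6, one_mul]
        exact (MulChar.ringHomComp_ne_one_iff inj).2 (hne 2 (by norm_num) (by norm_num)))
    rw [MulChar.ringHomComp_inv, MulChar.ringHomComp_inv, i5, i3, jacobiSum_ringHomComp,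
      jacobiSum_ringHomComp, ← map_mul, ZMod.card, ← map_natCast (algebraMap ℤ_[p] ℚ_[p]),
      inj.eq_iff, k5, k1] at h
    generalize ∑ t, a t = x at h ⊢
    generalize ∑ t, b t = y at h ⊢
    have : ((x ^ 2 + 3 * y ^ 2 : ℤ) : ℤ_[p]) = (p : ℤ) := by
      push_cast
      linear_combination h + (y : ℤ_[p]) ^ 2 * hs
    exact_mod_cast this
  · have hq : quadraticChar (ZMod p) ≠ 1 := quadraticChar_ne_one (ringChar_ne_two hm)
    have j1 := jacobiSum_nontrivial_inv hq
    rw [(quadraticChar_isQuadratic (ZMod p)).inv, quadraticChar_neg_one (ringChar_ne_two hm),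
      ZMod.card, ZMod.χ₄_nat_three_mod_four (by obtain ⟨k, rfl⟩ := hodd; omega), jacobiSum] at j1
    have j2 := MulChar.sum_eq_zero_of_ne_one hq
    have j3 := dvd_sum (s := univ) fun t _ => h3 t
    simp only [mul_sub, mul_one, sum_sub_distrib] at j3
    rw [j1, j2] at j3
    simpa using j3

theorem jacobi_data {m : ℕ} (hm : p = 6 * m + 1) (hodd : Odd m) :
    ∃ (x y : ℤ) (s : Zq p), s ^ 2 = -3 ∧ x ^ 2 + 3 * y ^ 2 = p ∧ (3 : ℤ) ∣ x - 1 ∧
      (4 ^ p) ^ (5 * m) * (((m + m).choose m : Zq p) *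
        (1 + p * (2 * m * hB p (m + m) - 2 * m * hB p m))) = -(x + y * s) ∧
      ((m + 3 * m).choose (3 * m) : Zq p) *
        (1 + p * (4 * m * hB p (m + 3 * m) - 3 * m * hB p (3 * m) - m * hB p m)) = -(x + y * s) := by
  have hm0 := m_pos hm
  obtain ⟨ω, hω⟩ := exists_teich (p := p)
  obtain ⟨s, hs⟩ := exists_sqrt_neg_three hω hm
  obtain ⟨x, y, hK, hxy, hx⟩ := jacobi_xy hω hm hodd hs
  have h6 : ω ^ (6 * m) = 1 := by
    rw [show 6 * m = p - 1 by omega]
    ext t
    rw [MulChar.pow_apply_coe, char_pow_card ω t.ne_zero, MulChar.one_apply_coe]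
  have hev : Even (p - 1) := ⟨3 * m, by omega⟩
  have hneg : (ω ^ (5 * m)) (-1) = -1 := by
    rw [MulChar.pow_apply' _ (by omega)]
    have h1 : ω (-1) ^ 2 = 1 := by rw [← map_pow]; simp
    have h2 : ω (-1) = -1 := (sq_eq_one_iff.1 h1).resolve_left fun h => by
      have h3 := hω (-1)
      rw [h, map_one] at h3
      exact Ring.two_ne_zero (ringChar_ne_two hm) (by linear_combination h3)
    rw [h2, (Odd.mul (by decide) hodd).neg_one_pow]
  have J1 := jacobi_swap (A := ω ^ (5 * m)) (B := ω ^ (2 * m)) (C := ω ^ (5 * m)) (by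
    rw [← pow_add, ← pow_add, show 5 * m + 2 * m + 5 * m = 6 * m * 2 by ring, pow_mul, h6, one_pow])
  have J4 := jacobi_swap (A := ω ^ (5 * m)) (B := ω ^ (4 * m)) (C := ω ^ (3 * m)) (by
    rw [← pow_add, ← pow_add, show 5 * m + 4 * m + 3 * m = 6 * m * 2 by ring, pow_mul, h6, one_pow])
  have D := jacobi_dup (ringChar_ne_two hm) (A := ω ^ (5 * m)) (φ := ω ^ (3 * m))
    (teich_pow_ne_one hω (by
      rw [show p - 1 = 6 * m by omega]
      exact Nat.not_dvd_of_pos_of_lt (by omega) (by omega)))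
    (fun t => by rw [MulChar.pow_apply' _ (by omega), teich_quadratic hω hm])
  rw [hK] at D J4
  rw [hneg] at J1 J4
  rw [MulChar.pow_apply' _ (by omega)] at D
  have D' : ω 4 ^ (5 * m) * jacobiSum (ω ^ (5 * m)) (ω ^ (2 * m)) = -(x + y * s) := by
    rw [J1, ← D]; ring
  obtain ⟨a, rfl⟩ : ∃ a, m = a + 1 := ⟨m - 1, by omega⟩
  have M1 := jacobi_mod hω (u := 5 * (a + 1)) (a := a) (b := a) (by omega) hev (by omega)
  have M4 := jacobi_mod hω (u := 5 * (a + 1)) (a := a) (b := 3 * a + 2) (by omega) hev (by omega)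
  rw [show a + a + 2 = 2 * (a + 1) by ring, hodd.neg_one_pow] at M1
  rw [show a + (3 * a + 2) + 2 = 4 * (a + 1) by ring, hodd.neg_one_pow, J4,
    show 3 * a + 2 + 1 = 3 * (a + 1) by ring] at M4
  have D2 := congrArg (PadicInt.toZModPow 2) D'
  rw [map_mul, M1, map_pow, teich_eq_pow hω 4 (y := 4) (map_ofNat _ 4)] at D2
  refine ⟨x, y, PadicInt.toZModPow 2 s, by rw [← map_pow, hs]; simp [map_ofNat], hxy, hx, ?_, ?_⟩
  · simp only [map_neg, map_add, map_mul, map_intCast] at D2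
    rw [← D2, ← two_mul]
    push_cast
    ring
  · simp only [map_neg, map_add, map_mul, map_intCast, map_one] at M4
    rw [show a + 1 + 3 * (a + 1) = 4 * (a + 1) by ring,
      Nat.choose_symm_of_eq_add (show 4 * (a + 1) = 3 * (a + 1) + (a + 1) by ring)]
    push_cast at M4 ⊢
    linear_combination -M4

end Pool.Agent.MP_d636e9_nt

end MrgPart5

-- ======== part 6: formerly Pool.Agent.MP_d636e9_nt.Sign
section MrgPart6

/-! Quadratic characters of `x` and `y` in `p = x ^ 2 + 3 * y ^ 2`, and uniqueness of `y ^ 2`. -/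

namespace Pool.Agent.MP_d636e9_nt

open scoped NumberTheorySymbols

theorem coprime_xy {p : ℕ} (hp : p.Prime) {x y : ℤ} (h : x ^ 2 + 3 * y ^ 2 = p) : IsCoprime x y := by
  rw [Int.isCoprime_iff_gcd_eq_one]
  have h1 : ((x.gcd y : ℤ)) ^ 2 ∣ p :=
    h ▸ dvd_add (pow_dvd_pow_of_dvd (Int.gcd_dvd_left x y) 2)
      (Dvd.dvd.mul_left (pow_dvd_pow_of_dvd (Int.gcd_dvd_right x y) 2) 3)
  have h2 : x.gcd y * x.gcd y ∣ p := by rw [← sq]; exact_mod_cast h1
  exact Nat.isUnit_iff.1 (hp.squarefree _ h2)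

theorem y_sq_unique {p : ℕ} (hp : p.Prime) {x y x' y' : ℤ} (h : x ^ 2 + 3 * y ^ 2 = p)
    (h' : x' ^ 2 + 3 * y' ^ 2 = p) : y' = y ∨ y' = -y := by
  have hp0 : (0 : ℤ) < p := by exact_mod_cast hp.pos
  have h1 : (x * y' - x' * y) * (x * y' + x' * y) = p * (y' ^ 2 - y ^ 2) := by
    linear_combination y' ^ 2 * h - y ^ 2 * h'
  have key : ∀ k u : ℤ, u ^ 2 + 3 * (p * k) ^ 2 = p ^ 2 → k = 0 := by
    intro k u hk
    by_contra h0
    have : 1 ≤ k ^ 2 := by
      have := sq_pos_of_ne_zero h0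
      omega
    nlinarith [sq_nonneg u, mul_pos hp0 hp0]
  have h2 : (x * y' - x' * y) * (x * y' + x' * y) = 0 := by
    rcases (Nat.prime_iff_prime_int.1 hp).dvd_or_dvd (Dvd.intro _ h1.symm) with ⟨k, hk⟩ | ⟨k, hk⟩
    · rw [hk, key k (x * x' + 3 * y * y') (by
        rw [← hk]; linear_combination (x' ^ 2 + 3 * y' ^ 2) * h + p * h')]
      simp
    · rw [hk, key k (x * x' - 3 * y * y') (by
        rw [← hk]; linear_combination (x' ^ 2 + 3 * y' ^ 2) * h + p * h')]
      simp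
  rw [h2] at h1
  exact sq_eq_sq_iff_eq_or_eq_neg.1
    (sub_eq_zero.1 ((mul_eq_zero.1 h1.symm).resolve_left hp0.ne'))

theorem jac_y {p : ℕ} (hp : p.Prime) (h4 : p % 4 = 3) {x y : ℤ} (h : x ^ 2 + 3 * y ^ 2 = p)
    (hy : y % 4 = 1) : J(y | p) = 1 := by
  have hodd : Odd p := Nat.odd_iff.2 (by omega)
  have h1 : J(p | y.natAbs) = 1 := by
    rw [jacobiSym.mod_left' (a₂ := x ^ 2), jacobiSym.sq_one']
    · rw [Int.natCast_natAbs, ← Int.isCoprime_iff_gcd_eq_one, IsCoprime.abs_right_iff]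
      exact coprime_xy hp h
    · refine (Int.emod_emod_of_dvd _ dvd_rfl).symm.trans
        ((Int.emod_emod_of_dvd _ dvd_rfl).trans (Int.ModEq.symm (Int.modEq_iff_dvd.2 ?_)))
      rw [Int.natAbs_dvd]
      exact ⟨3 * y, by linear_combination -h⟩
  rcases Int.natAbs_eq y with e | e
  · rw [e, jacobiSym.quadratic_reciprocity_one_mod_four (by omega) hodd, h1]
  · rw [e, jacobiSym.neg _ hodd, jacobiSym.quadratic_reciprocity_three_mod_four (by omega) h4, h1,
      ZMod.χ₄_nat_three_mod_four h4]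
    norm_num

theorem jac_x {p : ℕ} (hp : p.Prime) (h4 : p % 4 = 3) {x y : ℤ} (h : x ^ 2 + 3 * y ^ 2 = p)
    (hy : y % 2 = 1) (hx : (3 : ℤ) ∣ x - 1) : J(x | p) = (-1) ^ ((p - 3) / 4) := by
  have hodd : Odd p := Nat.odd_iff.2 (by omega)
  have hx0 : x.natAbs ≠ 0 := by omega
  obtain ⟨a, c, hc, hac⟩ := Nat.exists_eq_two_pow_mul_odd hx0
  have hcx : (c : ℤ) ∣ x := by
    rw [← Int.dvd_natAbs, hac]
    exact_mod_cast Dvd.intro_left _ rfl
  have h1 : J(p | c) = J(3 | c) := by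
    rw [jacobiSym.mod_left' (a₂ := 3 * y ^ 2), jacobiSym.mul_left, jacobiSym.sq_one', mul_one]
    · rw [← Int.isCoprime_iff_gcd_eq_one]
      exact ((coprime_xy hp h).of_isCoprime_of_dvd_left hcx).symm
    · refine Int.ModEq.symm (Int.modEq_iff_dvd.2 ?_)
      rw [show (p : ℤ) - 3 * y ^ 2 = x * x by linear_combination -h]
      exact hcx.mul_right x
  have h2 : J(c | p) = J(c | 3) := by
    rcases Nat.odd_mod_four_iff.1 (Nat.odd_iff.1 hc) with e | e
    · rw [jacobiSym.quadratic_reciprocity_one_mod_four e hodd,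
        jacobiSym.quadratic_reciprocity_one_mod_four e (by decide), h1]
      rfl
    · rw [jacobiSym.quadratic_reciprocity_three_mod_four e h4,
        jacobiSym.quadratic_reciprocity_three_mod_four e (by decide), h1]
      rfl
  have h23 : J(2 | 3) = -1 := by rw [jacobiSym.at_two (by decide)]; decide
  obtain ⟨k, hk⟩ : ∃ k, y ^ 2 = 8 * k + 1 := by
    obtain ⟨j, hj⟩ : ∃ j, y = 2 * j + 1 := ⟨y / 2, by omega⟩
    obtain ⟨i, hi⟩ := Int.even_mul_succ_self j
    exact ⟨i, by rw [hj]; linear_combination 4 * hi⟩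
  have hx2 : x ^ 2 = (2 ^ a * c) ^ 2 := by
    rw [← Int.natAbs_sq x, hac]; push_cast; ring
  obtain ⟨l, hl⟩ : ∃ l, (c : ℤ) ^ 2 = 8 * l + 1 := by
    obtain ⟨j, hj⟩ := hc
    obtain ⟨i, hi⟩ := Int.even_mul_succ_self j
    exact ⟨i, by rw [hj]; push_cast; linear_combination 4 * hi⟩
  have h3 : J(2 | p) ^ a = (-1) ^ ((p - 3) / 4) * J(2 | 3) ^ a := by
    rw [h23, jacobiSym.at_two hodd, ZMod.χ₈_nat_eq_if_mod_eight]
    match a, hx2 with
    | 0, hx2 =>
      exfalso
      have : (p : ℤ) = 8 * l + 1 + 3 * (8 * k + 1) := by linear_combination -h + hx2 + hl + 3 * hk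
      omega
    | 1, hx2 =>
      have : (p : ℤ) = 4 * (8 * l + 1) + 3 * (8 * k + 1) := by
        linear_combination -h + hx2 + 4 * hl + 3 * hk
      rw [if_neg (by omega), if_pos (by omega), Odd.neg_one_pow (n := (p - 3) / 4)
        (Nat.odd_iff.2 (by omega))]
      norm_num
    | b + 2, hx2 =>
      have : (p : ℤ) = 16 * (2 ^ b * c) ^ 2 + 3 * (8 * k + 1) := by
        linear_combination -h + hx2 + 3 * hk
      generalize (2 ^ b * c : ℤ) ^ 2 = w at this
      rw [if_neg (by omega), if_neg (by omega), Even.neg_one_pow (n := (p - 3) / 4)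
        (Nat.even_iff.2 (by omega)), one_mul]
  have h5 : J(x.natAbs | p) = (-1) ^ ((p - 3) / 4) * J(x.natAbs | 3) := by
    rw [hac]
    push_cast
    rw [jacobiSym.mul_left, jacobiSym.mul_left, jacobiSym.pow_left, jacobiSym.pow_left, h2, h3]
    ring
  have h6 : J(x | 3) = 1 := by
    rw [jacobiSym.mod_left' (a₂ := 1) (by omega), jacobiSym.one_left]
  rcases Int.natAbs_eq x with e | e
  · rw [← e, h6, mul_one] at h5
    exact h5
  · rw [e, jacobiSym.neg _ (by decide), ZMod.χ₄_nat_three_mod_four (by decide)] at h6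
    rw [e, jacobiSym.neg _ hodd, ZMod.χ₄_nat_three_mod_four h4, h5]
    linear_combination (-1) ^ ((p - 3) / 4) * h6

end Pool.Agent.MP_d636e9_nt

end MrgPart6

-- ======== part 7: formerly Pool.Agent.MP_d636e9_nt.Main
section MrgPart7

/-! Assembly of the supercongruences. -/

namespace Pool.Agent.MP_d636e9_nt

open Finset QuadraticAlgebra

variable {p : ℕ} [hp : Fact p.Prime]

omit hp in
theorem lam_im {u : ℕ → ℤ} (hu0 : u 0 = 0) (hu1 : u 1 = 1)
    (hu : ∀ k, u (k + 2) = 4 * u (k + 1) - u k) (k : ℕ) :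
    ((8 + 4 * omega : Q2) ^ k).im = 4 ^ k * u k := by
  induction k using Nat.twoStepInduction with
  | zero => simp [hu0]
  | one => simp [hu1]
  | more k ih1 ih2 =>
    have : (8 + 4 * omega : Q2) ^ (k + 2) =
        16 * (8 + 4 * omega) ^ (k + 1) - 16 * (8 + 4 * omega) ^ k := by
      linear_combination 16 * (8 + 4 * omega : Q2) ^ k * omega_sq (R := ℚ)
    rw [this, im_sub, im_mul, im_mul, ih1, ih2, hu]
    simp only [re_ofNat, im_ofNat]
    push_cast
    ring

omit hp in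
theorem ev_im (B : ℕ) (f : ℕ → ℚ) :
    (ev (omega : Q2) B f).im = ∑ k ∈ range B, f k * ((8 + 4 * omega : Q2) ^ k).im := by
  unfold ev
  induction B with
  | zero => simp
  | succ B ih => rw [sum_range_succ, sum_range_succ, im_add, ih]; simp

theorem red_sum {u : ℕ → ℤ} (hu0 : u 0 = 0) (hu1 : u 1 = 1)
    (hu : ∀ k, u (k + 2) = 4 * u (k + 1) - u k) {n : ℕ} (hn : p = 2 * n + 1) (c : ℕ → ℕ) :
    Rd p (∑ k ∈ range p, (c k * u k : ℚ) / 4 ^ k * ((2 * k).choose k : ℚ) ^ 2)
      (evR (p ^ 2) (n + 1) fun k => (c k : Zq p) * (t0 p k * 1)).im := by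
  have h1 := (red_ev (B := n + 1) (g := fun k => (c k : Zq p) * (t0 p k * 1)) fun k hk =>
    ((Red.natCast (c k)).mul (red_t0 hn k hk)).congr rfl (by rw [mul_one])).2
  rw [ev_im] at h1
  have h2 : (2 : Zq p) * iv p 2 = 1 := by
    exact_mod_cast mul_iv (p := p) (a := 2) two_pos (by have := hp.out.two_le; omega)
  have h3 : Rd p (∑ k ∈ Ico (n + 1) p, (c k * u k : ℚ) / 4 ^ k * ((2 * k).choose k : ℚ) ^ 2)
      (∑ k ∈ Ico (n + 1) p, 0) := by
    refine Red.sum _ fun k hk => ?_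
    obtain ⟨a, ha⟩ : p ∣ (2 * k).choose k := by
      rw [mem_Ico] at hk
      exact hp.out.dvd_choose (by omega) (by omega) (by omega)
    refine ((((Red.natCast (c k)).mul (Red.intCast (u k))).div ((Red.ofNat 4).pow k)
      (v := (iv p 2 ^ 2) ^ k) ?_).mul ((Red.natCast _).pow 2)).congr rfl ?_
    · rw [← mul_pow, show (4 : Zq p) * iv p 2 ^ 2 = (2 * iv p 2) ^ 2 by ring, h2]
      simp
    · rw [ha]
      push_cast
      rw [mul_pow, P_sq]
      simp
  rw [← sum_range_add_sum_Ico _ (show n + 1 ≤ p by omega)]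
  refine (h1.add h3).congr ?_ (by simp)
  congr 1
  refine sum_congr rfl fun k _ => ?_
  rw [lam_im hu0 hu1 hu, show (16 : ℚ) ^ k = 4 ^ k * 4 ^ k by rw [← mul_pow]; norm_num]
  field_simp

theorem red_g {m : ℕ} (hm : p = 6 * m + 1) :
    Rd p (g1 m) ((-iv p 2 ^ 2) ^ m * ((m + m).choose m *
      (1 + p * (-iv p 3 * (hB p (m + m) - hB p m) - -(iv p 2 * iv p 3) * hB p m)))) ∧
    Rd p (g4 (3 * m)) ((3 * iv p 2 ^ 2) ^ (3 * m) * ((m + 3 * m).choose (3 * m) *
      (1 + p * (-2 * iv p 3 * (hB p (m + 3 * m) - hB p m) - -iv p 2 * hB p (3 * m))))) := by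
  have hm0 := m_pos hm
  have h2 : (2 : Zq p) * iv p 2 = 1 := by exact_mod_cast mul_iv (p := p) (a := 2) two_pos (by omega)
  have h3 : (3 : Zq p) * iv p 3 = 1 := by
    exact_mod_cast mul_iv (p := p) (a := 3) three_pos (by omega)
  have rh : Rd p (1 / 2) (iv p 2) := (Red.one.div (Red.ofNat 2) h2).congr rfl (one_mul _)
  have rd : Rd p (1 / 3) (iv p 3) := (Red.one.div (Red.ofNat 3) h3).congr rfl (one_mul _)
  constructor
  · rw [g1_eq_Q hm]
    exact (((rh.pow 2).neg.congr (by norm_num) rfl).pow m).mul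
      (red_Q (rd.neg.congr (by norm_num) rfl) ((rh.mul rd).neg.congr (by norm_num) rfl) m (by omega))
  · rw [g4_eq_Q hm]
    exact ((((Red.ofNat 3).mul (rh.pow 2)).congr (by norm_num) rfl).pow _).mul
      (red_Q (((Red.ofNat 2).neg.mul rd).congr (by norm_num) rfl) (rh.neg.congr (by norm_num) rfl)
        _ (by omega))

theorem g1_unit {m : ℕ} (hm : p = 6 * m + 1) (z : Zq p) :
    IsUnit ((-iv p 2 ^ 2) ^ m * ((m + m).choose m * (1 + p * z))) := by
  have hm0 := m_pos hm
  have h2 : (2 : Zq p) * iv p 2 = 1 := by exact_mod_cast mul_iv (p := p) (a := 2) two_pos (by omega)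
  refine (((IsUnit.of_mul_eq_one_right _ h2).pow 2).neg.pow m).mul (IsUnit.mul ?_ ?_)
  · rw [ZMod.isUnit_iff_coprime]
    exact Nat.Coprime.pow_right 2 (hp.out.coprime_choose_of_lt (by omega) (by omega)).symm
  · exact IsUnit.of_mul_eq_one (1 - p * z) (by linear_combination -z ^ 2 * P_sq (p := p))

theorem main_even {m : ℕ} (hm : p = 6 * m + 1) (hev : Even m) : (sF p (3 * m) 1).im = 0 := by
  obtain ⟨r1, r4⟩ := red_g hm
  obtain ⟨w, hw⟩ := (g1_unit hm _).exists_right_inv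
  exact (hyp_side hm r1 r4 hw).1 hev

theorem main_odd {m : ℕ} (hm : p = 6 * m + 1) (hodd : Odd m) {x y : ℤ}
    (hxy : x ^ 2 + 3 * y ^ 2 = p) (hy : y % 4 = 1) :
    ∃ v : Zq p, 3 * y * v = 1 ∧
      (sF p (3 * m) 1).im = -(-1) ^ ((p - 3) / 4) * (4 * y - p * v) ∧
      (sD p (3 * m) 1).im = (-1) ^ ((p - 3) / 4) * (6 * y - 7 * p * v) := by
  have hm0 := m_pos hm
  have hp4 : p % 4 = 3 := by obtain ⟨k, rfl⟩ := hodd; omega
  obtain ⟨j, hj⟩ : ∃ j, 3 * m = 2 * j + 3 := by
    obtain ⟨k, rfl⟩ := hodd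
    exact ⟨3 * k, by ring⟩
  have h2 : (2 : Zq p) * iv p 2 = 1 := by exact_mod_cast mul_iv (p := p) (a := 2) two_pos (by omega)
  have h3 : (3 : Zq p) * iv p 3 = 1 := by
    exact_mod_cast mul_iv (p := p) (a := 3) three_pos (by omega)
  have hP := P_sq (p := p)
  obtain ⟨x', y', s, hs, hxy', hx', D1, D4⟩ := jacobi_data hm hodd
  have hs1 : red1 p s ^ 2 = -3 := by rw [← map_pow, hs, map_neg, map_ofNat]
  have hs0 : red1 p s ≠ 0 := by
    intro h
    rw [h] at hs1
    exact red1_ne (p := p) (a := 3) (by norm_num) (by omega) (by push_cast; linear_combination hs1)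
  have hT : (-3 : ZMod p) ^ (3 * m) = 1 := by
    rw [← hs1, ← pow_mul, show 2 * (3 * m) = p - 1 by omega, ZMod.pow_card_sub_one_eq_one hs0]
  obtain ⟨r1, r4⟩ := red_g hm
  obtain ⟨w, hw⟩ := (g1_unit hm _).exists_right_inv
  obtain ⟨H4, rH, hh, hh'⟩ := exists_h4 hm r4 hT
  obtain ⟨hF, hD⟩ := (hyp_side hm r1 r4 hw).2 j hj H4 rH hh hh' hT
  obtain ⟨q, hq⟩ := exists_of_red1 (x := (2 : Zq p) ^ (6 * m)) (y := 1) (by
    rw [map_pow, map_ofNat, map_one, show 6 * m = p - 1 by omega]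
    exact ZMod.pow_card_sub_one_eq_one (Ring.two_ne_zero (ringChar_ne_two hm)))
  have h4 : (4 : Zq p) ^ (6 * m) = 1 + p * (2 * q) := by
    rw [show (4 : Zq p) = 2 ^ 2 by norm_num, ← pow_mul, mul_comm 2, pow_mul, hq]
    linear_combination q ^ 2 * hP
  have hW : ((4 : Zq p) ^ p) ^ (5 * m) * 4 ^ m =
      (1 + p * (2 * q)) * (1 + 5 * m * (p * (2 * q))) := by
    have e1 : (4 : Zq p) ^ p = 4 * 4 ^ (6 * m) := by rw [← pow_succ', ← hm]
    have e2 := pow_add_P hP 1 (2 * q) (5 * m - 1)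
    have e3 : ((5 * m - 1 : ℕ) : Zq p) + 1 = 5 * m := by
      exact_mod_cast congrArg (Nat.cast (R := Zq p)) (show 5 * m - 1 + 1 = 5 * m by omega)
    rw [show 5 * m - 1 + 1 = 5 * m by omega, e3, one_pow, one_pow, mul_one] at e2
    rw [e1, h4, mul_pow, e2, ← h4]
    ring
  have hG := alg_G (T := (-3) ^ (3 * m)) (a := (iv p 2 ^ 2) ^ m) hP h2 h3
    (by exact_mod_cast congrArg (Nat.cast (R := Zq p)) hm)
    (by simpa only [mul_one] using
      (P_mul_iff (y := 1)).2 (by rw [map_pow, map_neg, map_ofNat, map_one, hT]))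
    (by rw [← mul_pow, show iv p 2 ^ 2 * 4 = (2 * iv p 2) ^ 2 by ring, h2]; simp) hW
    (by rw [← hq, ← pow_mul, ← pow_mul, show 2 * (m * 3) = 6 * m by ring, ← mul_pow, mul_comm, h2,
      one_pow]) D1 D4
  have e1 : (-iv p 2 ^ 2) ^ m = -(iv p 2 ^ 2) ^ m := hodd.neg_pow _
  have e2 : (3 * iv p 2 ^ 2) ^ (3 * m) = -(-3) ^ (3 * m) * ((iv p 2 ^ 2) ^ m) ^ 3 := by
    rw [(Odd.mul (by decide) hodd).neg_pow, neg_neg, mul_pow, ← pow_mul (iv p 2 ^ 2), mul_comm m 3]
  rw [← e2, ← e1] at hG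
  obtain ⟨hG1, hG2⟩ := hG
  have hy0 : (y : ZMod p) ≠ 0 := by
    rw [Ne, ZMod.intCast_zmod_eq_zero_iff_dvd]
    rintro ⟨k, rfl⟩
    have hk : k ≠ 0 := by rintro rfl; simp at hy
    have h1 : 1 ≤ k ^ 2 := by
      have := sq_pos_of_ne_zero hk
      omega
    have h7 : (7 : ℤ) ≤ p := by exact_mod_cast (show 7 ≤ p by omega)
    have h8 : (p : ℤ) ^ 2 * 1 ≤ p ^ 2 * k ^ 2 := mul_le_mul_of_nonneg_left h1 (sq_nonneg _)
    nlinarith [sq_nonneg x]
  obtain ⟨v, hv⟩ := ((IsUnit.of_mul_eq_one _ h3).mul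
    (unit_of_red1 (x := (y : Zq p)) (by rwa [map_intCast]))).exists_right_inv
  obtain ⟨τ, hτ, hτy, hτj⟩ : ∃ τ : ℤ, τ ^ 2 = 1 ∧ y' = τ * y ∧ jacobiSym y' p = τ := by
    have := jac_y hp.out hp4 hxy hy
    rcases y_sq_unique hp.out hxy hxy' with h | h
    · exact ⟨1, by norm_num, by rw [h, one_mul], by rw [h, this]⟩
    · refine ⟨-1, by norm_num, by rw [h]; ring, ?_⟩
      rw [h, jacobiSym.neg _ (Nat.odd_iff.2 (by omega)), this, ZMod.χ₄_nat_three_mod_four hp4]
      norm_num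
  have hκ := jac_x hp.out hp4 hxy' (by
    rcases y_sq_unique hp.out hxy hxy' with h | h <;> omega) hx'
  have hxs : (x' : ZMod p) = y' * red1 p s := by
    have uK : IsUnit ((x' : Zq p) + y' * s) :=
      isUnit_of_mul_isUnit_left (hG1 ▸ IsUnit.of_mul_eq_one w hw)
    have u1 := (uK.map (red1 p)).ne_zero
    rw [map_add, map_mul, map_intCast, map_intCast] at u1
    have u2 := congrArg (Int.cast (R := ZMod p)) hxy'
    push_cast at u2
    rw [ZMod.natCast_self] at u2
    refine sub_eq_zero.1 ((mul_eq_zero.1 ?_).resolve_left u1)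
    linear_combination u2 - (y' : ZMod p) ^ 2 * hs1
  have hρ : (-3 : Zq p) ^ (j + 1) * s = s ^ (3 * m) := by
    rw [← hs, hj]; ring
  obtain ⟨z, hz⟩ := exists_of_red1 (x := (-3 : Zq p) ^ (j + 1) * s)
    (y := (-1) ^ ((p - 3) / 4) * τ) (by
      have a1 := legendreSym.eq_pow p x'
      have a2 := legendreSym.eq_pow p y'
      rw [jacobiSym.legendreSym.to_jacobiSym, show p / 2 = 3 * m by omega] at a1 a2
      rw [hκ, hxs, mul_pow, ← a2, hτj] at a1
      have a3 := congrArg (Int.cast (R := ZMod p)) hτ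
      push_cast at a1 a3
      rw [hρ, map_pow, map_mul, map_pow, map_neg, map_one, map_intCast, a1]
      linear_combination -(red1 p s ^ (3 * m)) * a3)
  obtain ⟨k1, k2⟩ := alg_K (x := x') (y := y) (τ := τ) (κ := (-1) ^ ((p - 3) / 4)) hP h2 hs
    (K := x' + y' * s) (by rw [hτy]; push_cast; ring)
    (by
      have a1 := congrArg (Int.cast (R := Zq p)) hxy'
      have a3 := congrArg (Int.cast (R := Zq p)) hτ
      rw [hτy] at a1
      push_cast at a1 a3
      linear_combination a1 - 3 * (y : Zq p) ^ 2 * a3)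
    (by exact_mod_cast congrArg (Int.cast (R := Zq p)) hτ)
    (by rw [← pow_mul, mul_comm, pow_mul]; simp) hv hz hG1 hw
    (by rw [hG2, hρ, ← pow_mul, mul_comm (3 * m) 2, pow_mul s, hs])
  refine ⟨v, hv, ?_, ?_⟩
  · rw [hF, k1]
    linear_combination (-1) ^ ((p - 3) / 4) * p * v * h2
  · rw [hD, k1, k2]
    linear_combination -7 * (-1) ^ ((p - 3) / 4) * p * v * h2

end Pool.Agent.MP_d636e9_nt

end MrgPart7

-- marker of a merged file
example : 731051 + 532517 = 731051 + 532517 := rfl
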