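import Mathlib.Algebra.CharP.Defs
import Mathlib.Tactic.LinearCombination
import Mathlib.Algebra.Order.Ring.Star
import Mathlib.Analysis.Normed.Field.Lemmas
import Mathlib.Data.Rat.Star
import Mathlib.Tactic.Algebra.Basic

/-! Four terminating hypergeometric sums at the argument `4/3`, evaluated by the WZ method. -/

namespace Pool.Agent.MP_d636e9_nt

open Finset

def w (c : ℚ) (k : ℕ) : ℚ := ∏ i ∈ range k, (4 / 3) * (1 / 2 + i) / (c + i)

def t (n : ℕ) (c : ℚ) (k : ℕ) : ℚ := (n.choose (2 * k) : ℚ) * w c k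

def G (n : ℕ) (c : ℚ) : ℚ := ∑ k ∈ range (n + 1), t n c k

def DG (n : ℕ) (c : ℚ) : ℚ := ∑ k ∈ range (n + 1), k * t n c k

theorem choose_succ_cast (N j : ℕ) :
    (N.choose (j + 1) : ℚ) * (j + 1) = N.choose j * ((N : ℚ) - j) := by
  rcases le_or_gt j N with h | h
  · have := Nat.choose_succ_right_eq N j
    have h2 : ((N.choose (j + 1) * (j + 1) : ℕ) : ℚ) = ((N.choose j * (N - j) : ℕ) : ℚ) := by
      rw [this]
    push_cast [Nat.cast_sub h] at h2
    exact h2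
  · rw [Nat.choose_eq_zero_of_lt h, Nat.choose_eq_zero_of_lt (by omega)]
    simp

theorem choose_pred_cast (n j : ℕ) :
    (n.choose j : ℚ) = (n + 1).choose j * ((n : ℚ) + 1 - j) / (n + 1) := by
  rw [eq_div_iff (by positivity)]
  rcases le_or_gt j (n + 1) with h | h
  · have := Nat.choose_mul_succ_eq n j
    have h2 : ((n.choose j * (n + 1) : ℕ) : ℚ) = (((n + 1).choose j * (n + 1 - j) : ℕ) : ℚ) := by
      rw [this]
    push_cast [Nat.cast_sub h] at h2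
    exact h2
  · rw [Nat.choose_eq_zero_of_lt h, Nat.choose_eq_zero_of_lt (by omega)]
    simp

theorem t_succ (N : ℕ) (c : ℚ) (k : ℕ) (hc : c + k ≠ 0) :
    t N c (k + 1) = t N c k * (((N : ℚ) - 2 * k) * (N - 2 * k - 1) / (3 * (k + 1) * (c + k))) := by
  have h1 := choose_succ_cast N (2 * k)
  have h2 := choose_succ_cast N (2 * k + 1)
  have e : 2 * (k + 1) = 2 * k + 1 + 1 := by ring
  unfold t w
  rw [prod_range_succ, e]
  push_cast at h1 h2
  have h3 : (N.choose (2 * k + 1 + 1) : ℚ) =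
      N.choose (2 * k) * ((N : ℚ) - 2 * k) * (N - 2 * k - 1) / ((2 * k + 1) * (2 * k + 2)) := by
    rw [eq_div_iff (by positivity), ← h1]
    linear_combination (2 * (k : ℚ) + 1) * h2
  rw [h3]
  field_simp
  ring

theorem w_shift (c : ℚ) (k : ℕ) (hc : ∀ i : ℕ, i ≤ k → c + i ≠ 0) :
    w (c + 1) k = w c k * c / (c + k) := by
  induction k with
  | zero =>
    have := hc 0 le_rfl
    simp only [Nat.cast_zero, add_zero] at this
    simp [w, this]
  | succ k ih =>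
    have h1 := hc k (by omega)
    have h2 := hc (k + 1) le_rfl
    unfold w at ih ⊢
    rw [prod_range_succ, prod_range_succ, ih fun i hi => hc i (by omega)]
    push_cast at h2 ⊢
    have h3 : c + 1 + k ≠ 0 := by rwa [show c + 1 + k = c + (k + 1) by ring]
    field_simp
    ring

theorem w_shift2 (c : ℚ) (k : ℕ) (hc : ∀ i : ℕ, i ≤ k + 1 → c + i ≠ 0) :
    w (c + 2) k = w c k * (c * (c + 1)) / ((c + k) * (c + 1 + k)) := by
  have h1 := w_shift c k fun i hi => hc i (by omega)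
  have h2 := w_shift (c + 1) k fun i hi => by
    have := hc (i + 1) (by omega)
    push_cast at this
    rwa [show c + 1 + i = c + (i + 1) by ring]
  rw [show c + 2 = c + 1 + 1 by ring, h2, h1]
  have h3 := hc k (by omega)
  have h4 := hc (k + 1) le_rfl
  push_cast at h4
  have h5 : c + 1 + k ≠ 0 := by rwa [show c + 1 + k = c + (k + 1) by ring]
  field_simp

theorem t_zero {n k : ℕ} (c : ℚ) (h : n < 2 * k) : t n c k = 0 := by
  simp [t, Nat.choose_eq_zero_of_lt h]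

theorem sum_t_eq (n : ℕ) (c : ℚ) (f : ℕ → ℚ) {B : ℕ} (hB : n < 2 * B) :
    ∑ k ∈ range B, f k * t n c k = ∑ k ∈ range (n + 1), f k * t n c k := by
  have key : ∀ B, n < 2 * B → ∑ k ∈ range B, f k * t n c k =
      ∑ k ∈ range (n / 2 + 1), f k * t n c k := by
    intro B hB
    symm
    apply sum_subset (range_subset_range.2 (by omega))
    intro k _ hk
    rw [t_zero c (by simp at hk; omega), mul_zero]
  rw [key B hB, key (n + 1) (by omega)]

theorem t4_pred (n k : ℕ) (hk : k ≤ n) : t n (-2 * n) k = t (n + 1) (-2 * (n + 1 : ℕ)) k *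
    (((n : ℚ) + 1 - 2 * k) / (n + 1) * ((2 * n + 2) * (2 * n + 1)) /
      ((2 * n + 2 - k) * (2 * n + 1 - k))) := by
  have hk' : (k : ℚ) ≤ n := by exact_mod_cast hk
  have hn : (0 : ℚ) ≤ n := by positivity
  have h := w_shift2 (-2 * (n + 1 : ℕ)) k fun i hi => by
    have : (i : ℚ) ≤ k + 1 := by exact_mod_cast hi
    push_cast
    linarith
  unfold t
  rw [choose_pred_cast n, show (-2 * n : ℚ) = -2 * (n + 1 : ℕ) + 2 by push_cast; ring, h]
  push_cast
  have h1 : (2 * (n : ℚ) + 2 - k) ≠ 0 := by linarith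
  have h2 : (2 * (n : ℚ) + 1 - k) ≠ 0 := by linarith
  have h3 : (-2 * ((n : ℚ) + 1) + k) ≠ 0 := by linarith
  have h4 : (-2 * ((n : ℚ) + 1) + 1 + k) ≠ 0 := by linarith
  field_simp
  ring

theorem telescope (f : ℕ → ℚ) (B : ℕ) (h0 : f 0 = 0) (hB : f B = 0) (g : ℕ → ℚ)
    (h : ∀ k, k < B → g k = f (k + 1) - f k) : ∑ k ∈ range B, g k = 0 := by
  rw [sum_congr rfl fun k hk => h k (mem_range.1 hk), sum_range_sub, h0, hB, sub_zero]

theorem G4_rec (n : ℕ) : (4 * n + 2) * G (n + 1) (-2 * (n + 1 : ℕ)) = (3 * n + 2) * G n (-2 * n) := by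
  have h := telescope (fun k => -6 * (2 * n + 1) * k / (2 * n + 2 - k) * t (n + 1) (-2 * (n + 1 : ℕ)) k)
    (n + 1) (by simp) (by rw [t_zero _ (by omega), mul_zero])
    (fun k => (4 * n + 2) * t (n + 1) (-2 * (n + 1 : ℕ)) k - (3 * n + 2) * t n (-2 * n) k)
    (fun k hk => by
      have hk' : (k : ℚ) ≤ n := by exact_mod_cast Nat.lt_succ_iff.1 hk
      have hn : (0 : ℚ) ≤ n := by positivity
      have h3 : (-2 * ((n + 1 : ℕ) : ℚ) + k) ≠ 0 := by push_cast; linarith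
      rw [t_succ _ _ _ h3, t4_pred n k (by omega)]
      push_cast at h3 ⊢
      have h1 : (2 * (n : ℚ) + 2 - k) ≠ 0 := by linarith
      have h2 : (2 * (n : ℚ) + 1 - k) ≠ 0 := by linarith
      rw [show (2 * (n : ℚ) + 2 - (k + 1)) = 2 * n + 1 - k by ring,
        show (-2 * ((n : ℚ) + 1) + k) = -(2 * n + 2 - k) by ring]
      generalize ha : (2 * (n : ℚ) + 2 - k) = a at h1 ⊢
      generalize hb : (2 * (n : ℚ) + 1 - k) = b at h2 ⊢
      field_simp
      rw [← ha, ← hb]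
      ring)
  rw [sum_sub_distrib, sum_t_eq (n + 1) _ (fun _ => 4 * n + 2) (by omega), ← mul_sum, ← mul_sum,
    sub_eq_zero] at h
  exact h

theorem H4_rec (n : ℕ) : (4 * n + 2) * (DG (n + 1) (-2 * (n + 1 : ℕ)) +
      (n + 2) * G (n + 1) (-2 * (n + 1 : ℕ))) =
    (3 * n + 4) * (DG n (-2 * n) + (n + 1) * G n (-2 * n)) := by
  have h := telescope (fun k => -6 * (2 * n + 1) * k * (n + 2 + k) / (2 * n + 2 - k) *
      t (n + 1) (-2 * (n + 1 : ℕ)) k)
    (n + 1) (by simp) (by rw [t_zero _ (by omega), mul_zero])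
    (fun k => ((4 * n + 2) * (k + n + 2)) * t (n + 1) (-2 * (n + 1 : ℕ)) k -
      ((3 * n + 4) * (k + n + 1)) * t n (-2 * n) k)
    (fun k hk => by
      have hk' : (k : ℚ) ≤ n := by exact_mod_cast Nat.lt_succ_iff.1 hk
      have hn : (0 : ℚ) ≤ n := by positivity
      have h3 : (-2 * ((n + 1 : ℕ) : ℚ) + k) ≠ 0 := by push_cast; linarith
      rw [t_succ _ _ _ h3, t4_pred n k (by omega)]
      push_cast at h3 ⊢
      have h1 : (2 * (n : ℚ) + 2 - k) ≠ 0 := by linarith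
      have h2 : (2 * (n : ℚ) + 1 - k) ≠ 0 := by linarith
      rw [show (2 * (n : ℚ) + 2 - (k + 1)) = 2 * n + 1 - k by ring,
        show (-2 * ((n : ℚ) + 1) + k) = -(2 * n + 2 - k) by ring]
      generalize ha : (2 * (n : ℚ) + 2 - k) = a at h1 ⊢
      generalize hb : (2 * (n : ℚ) + 1 - k) = b at h2 ⊢
      field_simp
      rw [← ha, ← hb]
      ring)
  rw [sum_sub_distrib, sum_t_eq (n + 1) _ (fun k => (4 * n + 2) * (k + n + 2)) (by omega),
    sub_eq_zero] at h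
  unfold DG G
  rw [mul_sum, mul_sum, ← sum_add_distrib, ← sum_add_distrib, mul_sum, mul_sum]
  convert h using 2 <;> ring

def g4 (n : ℕ) : ℚ := ∏ j ∈ range n, (3 * (j : ℚ) + 2) / (4 * j + 2)

def h4 (n : ℕ) : ℚ := ∏ j ∈ range n, (3 * (j : ℚ) + 4) / (4 * j + 2)

theorem G4_eq (n : ℕ) : G n (-2 * n) = g4 n := by
  induction n with
  | zero => simp [G, t, w, g4]
  | succ n ih =>
    have h := G4_rec n
    rw [ih] at h
    rw [g4, prod_range_succ, ← g4, mul_div_assoc', eq_div_iff (by positivity)]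
    linear_combination h

theorem DG4_eq (n : ℕ) : DG n (-2 * n) = h4 n - (n + 1) * g4 n := by
  rw [← G4_eq, eq_sub_iff_add_eq]
  induction n with
  | zero => simp [G, DG, t, w, h4]
  | succ n ih =>
    have h := H4_rec n
    rw [ih] at h
    rw [h4, prod_range_succ, ← h4, mul_div_assoc', eq_div_iff (by positivity)]
    push_cast at h ⊢
    linear_combination h

theorem third_ne (a : ℤ) : (2 / 3 : ℚ) + a ≠ 0 := by
  intro h
  have h1 : ((2 + 3 * a : ℤ) : ℚ) = 0 := by push_cast; linarith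
  have h2 : 2 + 3 * a = 0 := by exact_mod_cast h1
  omega

theorem c1_ne (m i : ℕ) : (2 / 3 - 2 * ((m + 1 : ℕ) : ℚ)) + i ≠ 0 := by
  have := third_ne (i - 2 * (m + 1))
  push_cast at this ⊢
  rwa [show (2 / 3 - 2 * ((m : ℚ) + 1)) + i = 2 / 3 + (i - 2 * (m + 1)) by ring]

theorem t1_pred (m k : ℕ) : t (3 * m) (2 / 3 - 2 * m) k =
    t (3 * (m + 1)) (2 / 3 - 2 * (m + 1 : ℕ)) k *
    ((3 * (m : ℚ) + 3 - 2 * k) * (3 * m + 2 - 2 * k) * (3 * m + 1 - 2 * k) /
      ((3 * m + 3) * (3 * m + 2) * (3 * m + 1)) * ((2 / 3 - 2 * m - 2) * (2 / 3 - 2 * m - 1)) /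
      ((2 / 3 - 2 * m - 2 + k) * (2 / 3 - 2 * m - 1 + k))) := by
  have h := w_shift2 (2 / 3 - 2 * (m + 1 : ℕ)) k fun i _ => c1_ne m i
  unfold t
  rw [choose_pred_cast (3 * m), choose_pred_cast (3 * m + 1), choose_pred_cast (3 * m + 1 + 1),
    show (2 / 3 - 2 * m : ℚ) = 2 / 3 - 2 * (m + 1 : ℕ) + 2 by push_cast; ring, h,
    show 3 * m + 1 + 1 + 1 = 3 * (m + 1) by ring]
  have h1 := c1_ne m k
  have h2 := c1_ne m (k + 1)
  push_cast at h1 h2 ⊢
  have h3 : (2 / 3 - 2 * ((m : ℚ) + 1) + 1 + k) ≠ 0 := by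
    rwa [show (2 / 3 - 2 * ((m : ℚ) + 1) + 1 + k) = 2 / 3 - 2 * (m + 1) + (k + 1) by ring]
  generalize hc : (2 / 3 - 2 * ((m : ℚ) + 1)) = c at h1 h3 ⊢
  rw [show c + 2 - 2 + k = c + k by ring, show c + 2 - 1 + k = c + 1 + k by ring]
  field_simp
  ring

theorem G1_rec (m : ℕ) : (2 * (6 * m + 1)) * G (3 * (m + 1)) (2 / 3 - 2 * (m + 1 : ℕ)) =
    -(3 * m + 1) * G (3 * m) (2 / 3 - 2 * m) := by
  have h := telescope (fun k => (44 / 3 * k - 32 / 3 * k ^ 2 + 174 * m * k - 112 * m * k ^ 2 +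
      672 * m ^ 2 * k - 336 * m ^ 2 * k ^ 2 + 1026 * m ^ 3 * k - 288 * m ^ 3 * k ^ 2 +
      540 * m ^ 4 * k) / ((2 / 3 - 2 * m - 2 + k) * ((3 * m + 3) * (3 * m + 2) * (3 * m + 1))) *
      t (3 * (m + 1)) (2 / 3 - 2 * (m + 1 : ℕ)) k)
    (3 * (m + 1) + 1) (by simp) (by rw [t_zero _ (by omega), mul_zero])
    (fun k => (2 * (6 * m + 1)) * t (3 * (m + 1)) (2 / 3 - 2 * (m + 1 : ℕ)) k -
      (-(3 * m + 1)) * t (3 * m) (2 / 3 - 2 * m) k)
    (fun k _ => by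
      rw [t_succ _ _ _ (c1_ne m k), t1_pred m k]
      have h1 := c1_ne m k
      have h2 := c1_ne m (k + 1)
      generalize t (3 * (m + 1)) (2 / 3 - 2 * (m + 1 : ℕ)) k = τ
      push_cast at h1 h2 ⊢
      have h1' : (-4 - 6 * (m : ℚ) + 3 * k) ≠ 0 := fun h => h1 (by linarith)
      have h2' : (-1 - 6 * (m : ℚ) + 3 * k) ≠ 0 := fun h => h2 (by linarith)
      rw [show (2 / 3 - 2 * ((m : ℚ) + 1) + k) = (-4 - 6 * m + 3 * k) / 3 by ring,
        show (2 / 3 - 2 * (m : ℚ) - 2 + k) = (-4 - 6 * m + 3 * k) / 3 by ring,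
        show (2 / 3 - 2 * (m : ℚ) - 1 + k) = (-1 - 6 * m + 3 * k) / 3 by ring,
        show (2 / 3 - 2 * (m : ℚ) - 2 + (k + 1)) = (-1 - 6 * m + 3 * k) / 3 by ring]
      generalize ha : (-4 - 6 * (m : ℚ) + 3 * k) = a at h1' ⊢
      generalize hb : (-1 - 6 * (m : ℚ) + 3 * k) = b at h2' ⊢
      field_simp
      rw [← ha, ← hb]
      ring)
  rw [sum_sub_distrib, sum_t_eq (3 * m) _ (fun _ => -(3 * m + 1)) (by omega), ← mul_sum, ← mul_sum,
    sub_eq_zero] at h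
  exact h

theorem H1_rec (m : ℕ) : (2 / 3 + 4 * m) * (DG (3 * (m + 1)) (2 / 3 - 2 * (m + 1 : ℕ)) -
      (3 * m + 3) * G (3 * (m + 1)) (2 / 3 - 2 * (m + 1 : ℕ))) =
    -(1 + m) * (DG (3 * m) (2 / 3 - 2 * m) - (3 * m) * G (3 * m) (2 / 3 - 2 * m)) := by
  have h := telescope (fun k => (-76 / 3 * k + 100 / 3 * k ^ 2 - 32 / 3 * k ^ 3 - 886 / 3 * m * k +
      1006 / 3 * m * k ^ 2 - 272 / 3 * m * k ^ 3 - 1158 * m ^ 2 * k + 992 * m ^ 2 * k ^ 2 -
      176 * m ^ 2 * k ^ 3 - 2058 * m ^ 3 * k + 1158 * m ^ 3 * k ^ 2 - 96 * m ^ 3 * k ^ 3 -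
      1710 * m ^ 4 * k + 468 * m ^ 4 * k ^ 2 - 540 * m ^ 5 * k) /
      ((2 / 3 - 2 * m - 2 + k) * ((3 * m + 3) * (3 * m + 2) * (3 * m + 1))) *
      t (3 * (m + 1)) (2 / 3 - 2 * (m + 1 : ℕ)) k)
    (3 * (m + 1) + 1) (by simp) (by rw [t_zero _ (by omega), mul_zero])
    (fun k => ((2 / 3 + 4 * m) * (k - 3 * m - 3)) * t (3 * (m + 1)) (2 / 3 - 2 * (m + 1 : ℕ)) k -
      (-(1 + m) * (k - 3 * m)) * t (3 * m) (2 / 3 - 2 * m) k)
    (fun k _ => by
      rw [t_succ _ _ _ (c1_ne m k), t1_pred m k]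
      have h1 := c1_ne m k
      have h2 := c1_ne m (k + 1)
      generalize t (3 * (m + 1)) (2 / 3 - 2 * (m + 1 : ℕ)) k = τ
      push_cast at h1 h2 ⊢
      have h1' : (-4 - 6 * (m : ℚ) + 3 * k) ≠ 0 := fun h => h1 (by linarith)
      have h2' : (-1 - 6 * (m : ℚ) + 3 * k) ≠ 0 := fun h => h2 (by linarith)
      rw [show (2 / 3 - 2 * ((m : ℚ) + 1) + k) = (-4 - 6 * m + 3 * k) / 3 by ring,
        show (2 / 3 - 2 * (m : ℚ) - 2 + k) = (-4 - 6 * m + 3 * k) / 3 by ring,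
        show (2 / 3 - 2 * (m : ℚ) - 1 + k) = (-1 - 6 * m + 3 * k) / 3 by ring,
        show (2 / 3 - 2 * (m : ℚ) - 2 + (k + 1)) = (-1 - 6 * m + 3 * k) / 3 by ring]
      generalize ha : (-4 - 6 * (m : ℚ) + 3 * k) = a at h1' ⊢
      generalize hb : (-1 - 6 * (m : ℚ) + 3 * k) = b at h2' ⊢
      field_simp
      rw [← ha, ← hb]
      ring)
  rw [sum_sub_distrib, sum_t_eq (3 * m) _ (fun k => -(1 + m) * (k - 3 * m)) (by omega),
    sub_eq_zero] at h
  unfold DG G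
  rw [mul_sum, mul_sum, ← sum_sub_distrib, ← sum_sub_distrib, mul_sum, mul_sum]
  convert h using 2 <;> ring

def g1 (m : ℕ) : ℚ := ∏ j ∈ range m, (-(3 * (j : ℚ) + 1)) / (2 * (6 * j + 1))

theorem G1_eq (m : ℕ) : G (3 * m) (2 / 3 - 2 * m) = g1 m := by
  induction m with
  | zero => simp [G, t, w, g1]
  | succ m ih =>
    have h := G1_rec m
    rw [ih] at h
    rw [g1, prod_range_succ, ← g1, mul_div_assoc', eq_div_iff (by positivity)]
    linear_combination h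

theorem DG1_eq (m : ℕ) : DG (3 * m) (2 / 3 - 2 * m) = 3 * m * g1 m := by
  rw [← G1_eq, ← sub_eq_zero]
  induction m with
  | zero => simp [G, DG, t, w]
  | succ m ih =>
    have h := H1_rec m
    rw [ih, mul_zero] at h
    have := (mul_eq_zero.1 h).resolve_left (by positivity)
    push_cast at this ⊢
    linear_combination this

end Pool.Agent.MP_d636e9_nt
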