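import Mathlib.RingTheory.Polynomial.Basic
import Mathlib.Algebra.Polynomial.Derivative
import Mathlib.Tactic.ComputeDegree
import Mathlib.Topology.Sheaves.Presheaf
import Mathlib.Data.Int.Star
import Pool.Agent.MP_d636e9_nt.Hyper

/-! The quadratic transformation of terminating `2F1(-n, b; 2b; x)`, and its values at the roots of
`x^2 - 16 x + 16`. -/

namespace Pool.Agent.MP_d636e9_nt

open Finset Polynomial

/-- Coefficients of `2F1(-n, b; c; x)`. -/
def hc (n : ℕ) (b c : ℚ) (k : ℕ) : ℚ :=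
  ∏ i ∈ range k, (((i : ℚ) - n) * (i + b)) / ((i + 1) * (i + c))

def mo (b : ℚ) (k : ℕ) : ℚ := ∏ i ∈ range k, ((i : ℚ) + b) / (i + 2 * b)

theorem hc_eq (n : ℕ) (b : ℚ) (k : ℕ) : hc n b (2 * b) k = (-1) ^ k * n.choose k * mo b k := by
  induction k with
  | zero => simp [hc, mo]
  | succ k ih =>
    unfold hc mo at ih ⊢
    rw [prod_range_succ, prod_range_succ, ih]
    have h := choose_succ_cast n k
    have h2 : (n.choose (k + 1) : ℚ) = n.choose k * ((n : ℚ) - k) / (k + 1) := by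
      rw [eq_div_iff (by positivity), h]
    rw [h2, mul_div_mul_comm]
    ring

noncomputable def Lam (S : Type) [CommRing S] [Algebra ℚ S] (b : ℚ) : S[X] →ₗ[S] S :=
  Polynomial.lsum fun k => LinearMap.mulRight S (algebraMap ℚ S (mo b k))

variable {S : Type} [CommRing S] [Algebra ℚ S]

theorem Lam_monomial (b : ℚ) (k : ℕ) (a : S) :
    Lam S b (monomial k a) = a * algebraMap ℚ S (mo b k) := by
  unfold Lam
  rw [lsum_apply, sum_monomial_index] <;> simp

theorem Lam_C_mul (b : ℚ) (a : S) (f : S[X]) : Lam S b (C a * f) = a * Lam S b f := by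
  rw [C_mul', map_smul, smul_eq_mul]

theorem Lam_pow (b : ℚ) (a : S) (j : ℕ) : Lam S b ((1 - C a * X) ^ j) =
    ∑ k ∈ range (j + 1), algebraMap ℚ S ((-1) ^ k * j.choose k * mo b k) * a ^ k := by
  rw [sub_eq_neg_add, add_pow, map_sum]
  refine sum_congr rfl fun k _ => ?_
  have : (-(C a * X)) ^ k * 1 ^ (j - k) * (j.choose k : S[X]) =
      monomial k ((-a) ^ k * j.choose k) := by
    rw [← C_mul_X_pow_eq_monomial]
    simp only [map_mul, map_pow, map_neg, map_natCast]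
    ring
  rw [this, Lam_monomial]
  simp only [map_mul, map_pow, map_neg, map_one, map_natCast]
  ring

noncomputable def Mo (b : ℚ) (j : ℕ) : ℚ := Lam ℚ b ((1 - C 2 * X) ^ j)

theorem Lam_Mo (b : ℚ) (j : ℕ) : Lam S b ((1 - C 2 * X) ^ j) = algebraMap ℚ S (Mo b j) := by
  rw [Mo, Lam_pow, Lam_pow, map_sum]
  refine sum_congr rfl fun k _ => ?_
  simp [map_ofNat]

theorem Lam_ibp {n : ℕ} {b : ℚ} (hb : ∀ i : ℕ, i < n → (i : ℚ) + 2 * b ≠ 0) (f : ℚ[X])
    (hf : f.natDegree < n) :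
    Lam ℚ b (X * (1 - X) * derivative f + C b * (1 - C 2 * X) * f) = 0 := by
  rw [f.as_sum_range' n hf, derivative_sum, mul_sum, mul_sum, ← sum_add_distrib, map_sum]
  refine sum_eq_zero fun k hk => ?_
  have h := hb k (mem_range.1 hk)
  have h1 : X * derivative (monomial k (f.coeff k)) = monomial k (f.coeff k * k) := by
    rw [derivative_monomial]
    cases k with
    | zero => simp
    | succ k => rw [Nat.add_sub_cancel, X_mul_monomial]
  have h2 : X * (1 - X) * derivative (monomial k (f.coeff k)) +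
      C b * (1 - C 2 * X) * monomial k (f.coeff k) =
      monomial k (f.coeff k * (k + b)) - monomial (k + 1) (f.coeff k * (k + 2 * b)) := by
    rw [show X * (1 - X) * derivative (monomial k (f.coeff k)) =
      (1 - X) * (X * derivative (monomial k (f.coeff k))) by ring, h1]
    simp only [← C_mul_X_pow_eq_monomial, map_mul, map_add, map_natCast]
    ring
  rw [h2, map_sub, Lam_monomial, Lam_monomial, mo, mo, prod_range_succ]
  simp only [Algebra.algebraMap_self, RingHom.id_apply]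
  generalize (∏ i ∈ range k, ((i : ℚ) + b) / (i + 2 * b)) = A
  generalize ((k : ℚ) + 2 * b) = B at h ⊢
  field_simp
  ring

theorem Mo_zero (b : ℚ) : Mo b 0 = 1 := by
  rw [Mo, Lam_pow]; simp [mo]

theorem natDegree_v (j : ℕ) : ((1 - C 2 * X : ℚ[X]) ^ j).natDegree ≤ j := by
  refine natDegree_pow_le.trans ?_
  have : (1 - C 2 * X : ℚ[X]).natDegree ≤ 1 := by compute_degree
  nlinarith

theorem Mo_one {n : ℕ} {b : ℚ} (hb : ∀ i : ℕ, i < n → (i : ℚ) + 2 * b ≠ 0) (hn : 1 ≤ n) :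
    Mo b 1 = 0 := by
  have h := Lam_ibp hb 1 (by simp; omega)
  have h0 := hb 0 hn
  rw [derivative_one, mul_zero, zero_add, mul_one, Lam_C_mul] at h
  rw [Mo, pow_one]
  exact (mul_eq_zero.1 h).resolve_left (by intro h'; simp [h'] at h0)

theorem Mo_rec {n : ℕ} {b : ℚ} (hb : ∀ i : ℕ, i < n → (i : ℚ) + 2 * b ≠ 0) (j : ℕ)
    (hj : j + 2 ≤ n) : Mo b (j + 2) = Mo b j * ((j + 1) / (j + 1 + 2 * b)) := by
  have h := Lam_ibp hb ((1 - C 2 * X) ^ (j + 1)) ((natDegree_v _).trans_lt (by omega))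
  have h0 := hb (j + 1) (by omega)
  have h1 : X * (1 - X) * derivative ((1 - C 2 * X : ℚ[X]) ^ (j + 1)) +
      C b * (1 - C 2 * X) * (1 - C 2 * X) ^ (j + 1) =
      C (b + (j + 1) / 2) * (1 - C 2 * X) ^ (j + 2) - C (((j : ℚ) + 1) / 2) * (1 - C 2 * X) ^ j := by
    rw [derivative_pow_succ]
    have h3 : (C ((j : ℚ) + 1) : ℚ[X]) = 2 * C (((j : ℚ) + 1) / 2) := by
      rw [show (2 : ℚ[X]) = C 2 from rfl, ← C_mul]
      congr 1
      ring
    rw [h3, map_add, show (C 2 : ℚ[X]) = 2 from rfl]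
    simp only [derivative_sub, derivative_one, derivative_mul, derivative_ofNat, derivative_X]
    ring
  rw [h1, map_sub, Lam_C_mul, Lam_C_mul, ← Mo, ← Mo] at h
  push_cast at h0
  field_simp
  linear_combination 2 * h

theorem Mo_odd {n : ℕ} {b : ℚ} (hb : ∀ i : ℕ, i < n → (i : ℚ) + 2 * b ≠ 0) (k : ℕ)
    (hk : 2 * k + 1 ≤ n) : Mo b (2 * k + 1) = 0 := by
  induction k with
  | zero => exact Mo_one hb hk
  | succ k ih =>
    rw [show 2 * (k + 1) + 1 = 2 * k + 1 + 2 by ring, Mo_rec hb _ (by omega), ih (by omega),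
      zero_mul]

theorem Mo_even {n : ℕ} {b : ℚ} (hb : ∀ i : ℕ, i < n → (i : ℚ) + 2 * b ≠ 0) (k : ℕ)
    (hk : 2 * k ≤ n) : (4 / 3) ^ k * Mo b (2 * k) = w (b + 1 / 2) k := by
  induction k with
  | zero => simp [Mo_zero, w]
  | succ k ih =>
    rw [show 2 * (k + 1) = 2 * k + 2 by ring, Mo_rec hb _ (by omega), w, prod_range_succ, ← w,
      ← ih (by omega)]
    push_cast
    rw [show (2 * (k : ℚ) + 1 + 2 * b) = 2 * (b + 1 / 2 + k) by ring,
      show (2 * (k : ℚ) + 1) = 2 * (1 / 2 + k) by ring, mul_div_mul_left _ _ two_ne_zero]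
    ring

omit [Algebra ℚ S] in
theorem sum_range_two_mul' (f : ℕ → S) (B : ℕ) :
    ∑ j ∈ range (2 * B), f j = ∑ k ∈ range B, (f (2 * k) + f (2 * k + 1)) := by
  induction B with
  | zero => simp
  | succ B ih =>
    rw [show 2 * (B + 1) = 2 * B + 1 + 1 by ring, sum_range_succ, sum_range_succ, ih,
      sum_range_succ]
    ring

theorem quad {n : ℕ} {b : ℚ} (hb : ∀ i : ℕ, i < n → (i : ℚ) + 2 * b ≠ 0) (ξ : S) :
    ∑ k ∈ range (n + 1), algebraMap ℚ S (hc n b (2 * b) k) * (2 * ξ) ^ k =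
      ∑ k ∈ range (n + 1), algebraMap ℚ S ((3 / 4) ^ k * t n (b + 1 / 2) k) *
        ((1 - ξ) ^ (n - 2 * k) * ξ ^ (2 * k)) := by
  simp only [hc_eq]
  rw [← Lam_pow]
  have h1 : (1 - C (2 * ξ) * X : S[X]) = C ξ * (1 - C 2 * X) + C (1 - ξ) := by
    simp only [map_mul, map_sub, map_one]
    ring
  rw [h1, add_pow, map_sum]
  have h2 : ∀ j, Lam S b ((C ξ * (1 - C 2 * X)) ^ j * C (1 - ξ) ^ (n - j) * (n.choose j : S[X])) =
      algebraMap ℚ S (n.choose j * Mo b j) * ((1 - ξ) ^ (n - j) * ξ ^ j) := by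
    intro j
    have : (C ξ * (1 - C 2 * X)) ^ j * C (1 - ξ) ^ (n - j) * (n.choose j : S[X]) =
        C ((n.choose j : S) * ((1 - ξ) ^ (n - j) * ξ ^ j)) * (1 - C 2 * X) ^ j := by
      simp only [map_mul, map_pow, map_natCast, mul_pow]
      ring
    rw [this, Lam_C_mul, Lam_Mo, map_mul, map_natCast]
    ring
  simp only [h2]
  rw [sum_subset (range_subset_range.2 (show n + 1 ≤ 2 * (n + 1) by omega)) (fun j _ hj => by
    rw [Nat.choose_eq_zero_of_lt (by simpa using hj)]; simp), sum_range_two_mul']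
  refine sum_congr rfl fun k _ => ?_
  have h3 : (n.choose (2 * k + 1) : ℚ) * Mo b (2 * k + 1) = 0 := by
    rcases le_or_gt (2 * k + 1) n with h | h
    · rw [Mo_odd hb k h, mul_zero]
    · rw [Nat.choose_eq_zero_of_lt h]; simp
  have h4 : (n.choose (2 * k) : ℚ) * Mo b (2 * k) = (3 / 4) ^ k * t n (b + 1 / 2) k := by
    rcases le_or_gt (2 * k) n with h | h
    · rw [t, ← Mo_even hb k h]
      have : (3 / 4 : ℚ) ^ k * (4 / 3) ^ k = 1 := by rw [← mul_pow]; norm_num
      linear_combination (-(n.choose (2 * k) : ℚ) * Mo b (2 * k)) * this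
    · rw [t_zero _ h, Nat.choose_eq_zero_of_lt h]; simp
  rw [h3, h4, map_zero, zero_mul, add_zero]

theorem theta_pow (a e : ℕ) : (1 - X) * (X * derivative ((1 - X : ℚ[X]) ^ a * X ^ e)) =
    (-(a : ℚ[X]) * X + (e : ℚ[X]) * (1 - X)) * ((1 - X) ^ a * X ^ e) := by
  have h1 : (1 - X) * derivative ((1 - X : ℚ[X]) ^ a) = -(a : ℚ[X]) * (1 - X) ^ a := by
    cases a with
    | zero => simp
    | succ a => rw [derivative_pow_succ]; simp; ring
  have h2 : X * derivative ((X : ℚ[X]) ^ e) = (e : ℚ[X]) * X ^ e := by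
    cases e with
    | zero => simp
    | succ e => rw [derivative_pow_succ]; simp; ring
  rw [derivative_mul]
  linear_combination (X * X ^ e) * h1 + ((1 - X) * (1 - X) ^ a) * h2

theorem quad_deriv {n : ℕ} {b : ℚ} (hb : ∀ i : ℕ, i < n → (i : ℚ) + 2 * b ≠ 0) (ξ : S) :
    (1 - ξ) * ∑ k ∈ range (n + 1), algebraMap ℚ S (k * hc n b (2 * b) k) * (2 * ξ) ^ k =
      ∑ k ∈ range (n + 1), algebraMap ℚ S ((3 / 4) ^ k * t n (b + 1 / 2) k) *
        ((-((n - 2 * k : ℕ) : S) * ξ + (2 * k : ℕ) * (1 - ξ)) *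
          ((1 - ξ) ^ (n - 2 * k) * ξ ^ (2 * k))) := by
  have h := congrArg (fun f : ℚ[X] => aeval ξ ((1 - X) * (X * derivative f))) (quad hb (X : ℚ[X]))
  simp only [mul_sum, Polynomial.algebraMap_apply, Algebra.algebraMap_self,
    RingHom.id_apply, derivative_C_mul, map_sum] at h
  rw [mul_sum]
  convert h using 2 with k _ k _
  · have h2 : X * derivative ((2 * X : ℚ[X]) ^ k) = (k : ℚ[X]) * (2 * X) ^ k := by
      cases k with
      | zero => simp
      | succ k => rw [derivative_pow_succ]; simp; ring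
    rw [mul_left_comm X, h2]
    simp only [map_mul, map_sub, map_one, aeval_X, aeval_C, map_pow, map_natCast, map_ofNat]
    ring
  · rw [mul_left_comm X, mul_left_comm (1 - X), theta_pow]
    simp only [map_mul, map_sub, map_one, aeval_X, aeval_C, map_pow, map_natCast, map_add, map_neg]

theorem special_term {n : ℕ} (c : ℚ) (ξ : S) (hξ : 3 * ξ ^ 2 = 4 * (1 - ξ) ^ 2) (k : ℕ) :
    algebraMap ℚ S ((3 / 4) ^ k * t n c k) * ((1 - ξ) ^ (n - 2 * k) * ξ ^ (2 * k)) =
      (1 - ξ) ^ n * algebraMap ℚ S (t n c k) := by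
  rcases le_or_gt (2 * k) n with h | h
  · obtain ⟨d, rfl⟩ := Nat.exists_eq_add_of_le h
    have h1 : algebraMap ℚ S (3 / 4) * ξ ^ 2 = (1 - ξ) ^ 2 := by
      have h4 : algebraMap ℚ S (1 / 4) * 4 = 1 := by
        rw [show (4 : S) = algebraMap ℚ S 4 from (map_ofNat _ 4).symm, ← map_mul]; norm_num
      have h3 : algebraMap ℚ S (3 / 4) = algebraMap ℚ S (1 / 4) * 3 := by
        rw [show (3 : S) = algebraMap ℚ S 3 from (map_ofNat _ 3).symm, ← map_mul]; norm_num
      rw [h3]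
      linear_combination algebraMap ℚ S (1 / 4) * hξ + (1 - ξ) ^ 2 * h4
    rw [Nat.add_sub_cancel_left, map_mul, map_pow, pow_add, pow_mul, pow_mul, ← h1, mul_pow]
    ring
  · rw [t_zero _ h]; simp

theorem quad_special {n : ℕ} {b : ℚ} (hb : ∀ i : ℕ, i < n → (i : ℚ) + 2 * b ≠ 0) (ξ : S)
    (hξ : 3 * ξ ^ 2 = 4 * (1 - ξ) ^ 2) :
    ∑ k ∈ range (n + 1), algebraMap ℚ S (hc n b (2 * b) k) * (2 * ξ) ^ k =
      (1 - ξ) ^ n * algebraMap ℚ S (G n (b + 1 / 2)) ∧
    (1 - ξ) * ∑ k ∈ range (n + 1), algebraMap ℚ S (k * hc n b (2 * b) k) * (2 * ξ) ^ k =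
      (1 - ξ) ^ n * (-(n : S) * ξ * algebraMap ℚ S (G n (b + 1 / 2)) +
        2 * algebraMap ℚ S (DG n (b + 1 / 2))) := by
  constructor
  · rw [quad hb, G, map_sum, mul_sum]
    exact sum_congr rfl fun k _ => special_term _ ξ hξ k
  · rw [quad_deriv hb, G, DG, map_sum, map_sum, mul_sum, mul_sum, ← sum_add_distrib, mul_sum]
    refine sum_congr rfl fun k _ => ?_
    rw [mul_left_comm, special_term _ ξ hξ k]
    rcases le_or_gt (2 * k) n with h | h
    · rw [Nat.cast_sub h, map_mul, map_natCast]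
      push_cast
      ring
    · rw [t_zero _ h]; simp

end Pool.Agent.MP_d636e9_nt
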