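import Mathlib.Tactic.NormNum.BigOperators
import Mathlib.Tactic.Polynomial.Basic
import Pool.Agent.MP_d636e9_nt.Quad

/-! The two Pade polynomials of `(1 - x) ^ ((2 n + 1) / 4)` at `x = 8 + 4 √3`: their ratio. -/

namespace Pool.Agent.MP_d636e9_nt

open Finset

theorem hc_succ (n : ℕ) (b c : ℚ) (k : ℕ) :
    hc n b c (k + 1) = hc n b c k * ((((k : ℚ) - n) * (k + b)) / ((k + 1) * (k + c))) := by
  rw [hc, prod_range_succ, ← hc]

theorem hc_zero {n k : ℕ} (b c : ℚ) (h : n < k) : hc n b c k = 0 :=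
  prod_eq_zero (mem_range.2 h) (by simp)

def T2 (n k : ℕ) : ℚ := hc n (-n - (2 * n + 1) / 4) (-2 * n) k

def T3 (n k : ℕ) : ℚ := hc n (-n + (2 * n + 1) / 4) (-2 * n) k

theorem T3_pred (n k : ℕ) (hk : k ≤ 2 * n) : T3 n k = T3 (n + 2) k *
    (4 * (2 * n + 1) * ((k - n - 2) * (k - n - 1) * (2 * n + 3 - 4 * k)) /
      ((k - 2 * n - 1) * (k - 2 * n - 2) * (k - 2 * n - 3) * (k - 2 * n - 4))) := by
  have hn : (0 : ℚ) ≤ n := by positivity
  induction k with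
  | zero =>
    have h1 : (-2 * (n : ℚ) - 1) ≠ 0 := by linarith
    have h2 : (-2 * (n : ℚ) - 2) ≠ 0 := by linarith
    have h3 : (-2 * (n : ℚ) - 3) ≠ 0 := by linarith
    have h4 : (-2 * (n : ℚ) - 4) ≠ 0 := by linarith
    simp only [T3, hc, range_zero, prod_empty, Nat.cast_zero, one_mul, zero_sub, neg_mul] at *
    rw [eq_div_iff (by positivity)]
    ring
  | succ k ih =>
    have hk' : (k : ℚ) + 1 ≤ 2 * n := by exact_mod_cast hk
    unfold T3 at ih ⊢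
    rw [hc_succ, hc_succ, ih (by omega)]
    generalize hc (n + 2) _ _ k = τ
    push_cast
    have h0 : ((k : ℚ) - 2 * n) ≠ 0 := by linarith
    have h1 : ((k : ℚ) - 2 * n - 1) ≠ 0 := by linarith
    have h2 : ((k : ℚ) - 2 * n - 2) ≠ 0 := by linarith
    have h3 : ((k : ℚ) - 2 * n - 3) ≠ 0 := by linarith
    have h4 : ((k : ℚ) - 2 * n - 4) ≠ 0 := by linarith
    rw [show (k : ℚ) + -2 * (n + 2) = k - 2 * n - 4 by ring, show (k : ℚ) + -2 * n = k - 2 * n by ring,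
      show (k : ℚ) + 1 - 2 * n - 1 = k - 2 * n by ring,
      show (k : ℚ) + 1 - 2 * n - 2 = k - 2 * n - 1 by ring,
      show (k : ℚ) + 1 - 2 * n - 3 = k - 2 * n - 2 by ring,
      show (k : ℚ) + 1 - 2 * n - 4 = k - 2 * n - 3 by ring]
    generalize (k : ℚ) - 2 * n - 4 = a4 at h4 ⊢
    generalize (k : ℚ) - 2 * n - 3 = a3 at h3 ⊢
    generalize (k : ℚ) - 2 * n - 2 = a2 at h2 ⊢
    generalize (k : ℚ) - 2 * n - 1 = a1 at h1 ⊢
    generalize (k : ℚ) - 2 * n = a0 at h0 ⊢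
    field_simp
    ring

theorem T2_pred (n k : ℕ) (hk : k ≤ 2 * n) : T2 n k = T2 (n + 2) k *
    (4 * (2 * n + 1) * ((k - n - 2) * (k - n - 1) * (6 * n + 5 - 4 * k) * (6 * n + 9 - 4 * k) *
      (6 * n + 13 - 4 * k)) / ((6 * n + 5) * (3 * (6 * n + 13)) *
      ((k - 2 * n - 1) * (k - 2 * n - 2) * (k - 2 * n - 3) * (k - 2 * n - 4)))) := by
  have hn : (0 : ℚ) ≤ n := by positivity
  induction k with
  | zero =>
    have h1 : (-2 * (n : ℚ) - 1) ≠ 0 := by linarith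
    have h2 : (-2 * (n : ℚ) - 2) ≠ 0 := by linarith
    have h3 : (-2 * (n : ℚ) - 3) ≠ 0 := by linarith
    have h4 : (-2 * (n : ℚ) - 4) ≠ 0 := by linarith
    simp only [T2, hc, range_zero, prod_empty, Nat.cast_zero, one_mul, zero_sub, neg_mul] at *
    rw [eq_div_iff (by positivity)]
    ring
  | succ k ih =>
    have hk' : (k : ℚ) + 1 ≤ 2 * n := by exact_mod_cast hk
    unfold T2 at ih ⊢
    rw [hc_succ, hc_succ, ih (by omega)]
    generalize hc (n + 2) _ _ k = τ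
    push_cast
    have h0 : ((k : ℚ) - 2 * n) ≠ 0 := by linarith
    have h1 : ((k : ℚ) - 2 * n - 1) ≠ 0 := by linarith
    have h2 : ((k : ℚ) - 2 * n - 2) ≠ 0 := by linarith
    have h3 : ((k : ℚ) - 2 * n - 3) ≠ 0 := by linarith
    have h4 : ((k : ℚ) - 2 * n - 4) ≠ 0 := by linarith
    have h5 : (6 * (n : ℚ) + 5) ≠ 0 := by positivity
    have h6 : (6 * (n : ℚ) + 13) ≠ 0 := by positivity
    rw [show (k : ℚ) + -2 * (n + 2) = k - 2 * n - 4 by ring, show (k : ℚ) + -2 * n = k - 2 * n by ring,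
      show (k : ℚ) + 1 - 2 * n - 1 = k - 2 * n by ring,
      show (k : ℚ) + 1 - 2 * n - 2 = k - 2 * n - 1 by ring,
      show (k : ℚ) + 1 - 2 * n - 3 = k - 2 * n - 2 by ring,
      show (k : ℚ) + 1 - 2 * n - 4 = k - 2 * n - 3 by ring]
    generalize (k : ℚ) - 2 * n - 4 = a4 at h4 ⊢
    generalize (k : ℚ) - 2 * n - 3 = a3 at h3 ⊢
    generalize (k : ℚ) - 2 * n - 2 = a2 at h2 ⊢
    generalize (k : ℚ) - 2 * n - 1 = a1 at h1 ⊢
    generalize (k : ℚ) - 2 * n = a0 at h0 ⊢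
    field_simp
    ring

variable {S : Type} [CommRing S] [Algebra ℚ S]

/-- The sum of `f k * (8 + 4 r) ^ k` over `k < B`. -/
def ev (r : S) (B : ℕ) (f : ℕ → ℚ) : S := ∑ k ∈ range B, algebraMap ℚ S (f k) * (8 + 4 * r) ^ k

theorem telescope2 {r : S} (hr : r ^ 2 = 3) (B : ℕ) (A0 A1 G0 G1 : ℕ → ℚ)
    (z0 : G0 0 = 0) (z1 : G1 0 = 0) (e0 : G0 B = 0) (e1 : G1 B = 0)
    (h0 : ∀ k, k < B → A0 k = 8 * G0 (k + 1) + 12 * G1 (k + 1) - G0 k)
    (h1 : ∀ k, k < B → A1 k = 4 * G0 (k + 1) + 8 * G1 (k + 1) - G1 k) :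
    ev r B A0 + r * ev r B A1 = 0 := by
  have := sum_range_sub
    (fun k => (algebraMap ℚ S (G0 k) + r * algebraMap ℚ S (G1 k)) * (8 + 4 * r) ^ k) B
  simp only [z0, z1, e0, e1, map_zero, mul_zero, add_zero, zero_mul, sub_zero] at this
  rw [← this, ev, ev, mul_sum, ← sum_add_distrib]
  refine sum_congr rfl fun k hk => ?_
  rw [h0 k (mem_range.1 hk), h1 k (mem_range.1 hk)]
  simp only [map_sub, map_add, map_mul, map_ofNat]
  linear_combination (-4 * algebraMap ℚ S (G1 (k + 1)) * (8 + 4 * r) ^ k) * hr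

theorem ev_lin (r : S) (B : ℕ) (a b : ℚ) (f g : ℕ → ℚ) :
    ev r B (fun k => a * f k + b * g k) = algebraMap ℚ S a * ev r B f + algebraMap ℚ S b * ev r B g := by
  simp only [ev, mul_sum, ← sum_add_distrib, map_add, map_mul]
  exact sum_congr rfl fun k _ => by ring

theorem ev_ext (r : S) {n : ℕ} (b c : ℚ) :
    ev r (n + 2 + 1) (hc n b c) = ev r (n + 1) (hc n b c) := by
  simp only [ev]
  rw [sum_range_succ, sum_range_succ, hc_zero b c (show n < n + 2 by omega),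
    hc_zero b c (show n < n + 1 by omega)]
  simp

theorem F3_rec {r : S} (hr : r ^ 2 = 3) (n : ℕ) (hn : 2 ≤ n) :
    ev r (n + 2 + 1) (T3 (n + 2)) =
      -(3 + 2 * r) * algebraMap ℚ S ((6 * n + 5) / (4 * (2 * n + 1))) * ev r (n + 1) (T3 n) := by
  have hn' : (2 : ℚ) ≤ n := by exact_mod_cast hn
  have key : ∀ k : ℕ, k < n + 2 + 1 → ∀ u v : ℚ, ∀ M0 M1 : ℚ → ℚ,
      u * ((k - 2 * n - 1) * (k - 2 * n - 2) * (k - 2 * n - 3) * (k - 2 * n - 4)) +
        v * ((6 * n + 5) * ((k - n - 2) * (k - n - 1) * (2 * n + 3 - 4 * k))) =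
        M0 (k + 1) * (k - n - 2) * (k - (2 * n + 3) / 4) - k * M1 k * (k - 2 * n - 1) →
      u * T3 (n + 2) k + v * ((6 * n + 5) / (4 * (2 * n + 1))) * T3 n k =
        ((k + 1 : ℕ) : ℚ) * M0 (k + 1 : ℕ) / ((((k + 1 : ℕ) : ℚ) - 2 * n - 2) *
          ((k + 1 : ℕ) - 2 * n - 3) * ((k + 1 : ℕ) - 2 * n - 4)) * T3 (n + 2) (k + 1) -
        k * M1 k / (((k : ℚ) - 2 * n - 2) * (k - 2 * n - 3) * (k - 2 * n - 4)) * T3 (n + 2) k := by
    intro k hk u v M0 M1 h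
    have hk' : (k : ℚ) ≤ n + 2 := by exact_mod_cast Nat.lt_succ_iff.1 hk
    rw [T3_pred n k (by omega), T3, T3, hc_succ]
    generalize hc (n + 2) _ _ k = τ
    push_cast
    have h1 : ((k : ℚ) - 2 * n - 1) ≠ 0 := by linarith
    have h2 : ((k : ℚ) - 2 * n - 2) ≠ 0 := by linarith
    have h3 : ((k : ℚ) - 2 * n - 3) ≠ 0 := by linarith
    have h4 : ((k : ℚ) - 2 * n - 4) ≠ 0 := by linarith
    have h5 : (2 * (n : ℚ) + 1) ≠ 0 := by positivity
    rw [show (k : ℚ) + -2 * (n + 2) = k - 2 * n - 4 by ring,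
      show (k : ℚ) + 1 - 2 * n - 2 = k - 2 * n - 1 by ring,
      show (k : ℚ) + 1 - 2 * n - 3 = k - 2 * n - 2 by ring,
      show (k : ℚ) + 1 - 2 * n - 4 = k - 2 * n - 3 by ring]
    generalize (k : ℚ) - 2 * n - 4 = a4 at h4 h ⊢
    generalize (k : ℚ) - 2 * n - 3 = a3 at h3 h ⊢
    generalize (k : ℚ) - 2 * n - 2 = a2 at h2 h ⊢
    generalize (k : ℚ) - 2 * n - 1 = a1 at h1 h ⊢
    generalize M0 (k + 1) = m0 at h ⊢
    generalize M1 k = m1 at h ⊢
    field_simp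
    linear_combination 4 * τ * h
  set N0 : ℚ → ℚ := fun k => 30 - 29 * k + 7 * k ^ 2 + 46 * n - 22 * n * k + 16 * n ^ 2
  set N1 : ℚ → ℚ := fun k => -6 + 11 * k - 4 * k ^ 2 - 7 * n + 6 * n * k - 2 * n ^ 2
  have h := telescope2 hr (n + 2 + 1)
    (fun k => 1 * T3 (n + 2) k + 3 * ((6 * n + 5) / (4 * (2 * n + 1))) * T3 n k)
    (fun k => 0 * T3 (n + 2) k + 2 * ((6 * n + 5) / (4 * (2 * n + 1))) * T3 n k)
    (fun k => k * N0 k / (((k : ℚ) - 2 * n - 2) * (k - 2 * n - 3) * (k - 2 * n - 4)) * T3 (n + 2) k)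
    (fun k => k * N1 k / (((k : ℚ) - 2 * n - 2) * (k - 2 * n - 3) * (k - 2 * n - 4)) * T3 (n + 2) k)
    (by simp) (by simp) (by rw [T3, hc_zero _ _ (by omega), mul_zero])
    (by rw [T3, hc_zero _ _ (by omega), mul_zero])
    (fun k hk => by
      rw [key k hk 1 3 (fun k => 8 * N0 k + 12 * N1 k) N0 (by simp only [N0, N1]; ring)]
      ring)
    (fun k hk => by
      rw [key k hk 0 2 (fun k => 4 * N0 k + 8 * N1 k) N1 (by simp only [N0, N1]; ring)]
      ring)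
  rw [ev_lin, ev_lin, show T3 n = hc n _ _ from rfl, ev_ext, ← show T3 n = hc n _ _ from rfl] at h
  simp only [map_mul, map_one, map_zero, map_ofNat] at h
  linear_combination h

theorem F2_rec {r : S} (hr : r ^ 2 = 3) (n : ℕ) (hn : 2 ≤ n) :
    ev r (n + 2 + 1) (T2 (n + 2)) =
      (45 + 26 * r) * algebraMap ℚ S ((6 * n + 5) / (4 * (2 * n + 1))) * ev r (n + 1) (T2 n) := by
  have hn' : (2 : ℚ) ≤ n := by exact_mod_cast hn
  have key : ∀ k : ℕ, k < n + 2 + 1 → ∀ u v : ℚ, ∀ M0 M1 : ℚ → ℚ,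
      u * (3 * (6 * n + 13) *
        ((k - 2 * n - 1) * (k - 2 * n - 2) * (k - 2 * n - 3) * (k - 2 * n - 4))) +
        v * ((k - n - 2) * (k - n - 1) * (6 * n + 5 - 4 * k) * (6 * n + 9 - 4 * k) *
          (6 * n + 13 - 4 * k)) =
        M0 (k + 1) * (k - n - 2) * (k - (6 * n + 13) / 4) - k * M1 k * (k - 2 * n - 1) →
      u * T2 (n + 2) k + v * ((6 * n + 5) / (4 * (2 * n + 1))) * T2 n k =
        ((k + 1 : ℕ) : ℚ) * M0 (k + 1 : ℕ) / (3 * (6 * n + 13) * ((((k + 1 : ℕ) : ℚ) - 2 * n - 2) *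
          ((k + 1 : ℕ) - 2 * n - 3) * ((k + 1 : ℕ) - 2 * n - 4))) * T2 (n + 2) (k + 1) -
        k * M1 k / (3 * (6 * n + 13) * (((k : ℚ) - 2 * n - 2) * (k - 2 * n - 3) * (k - 2 * n - 4))) *
          T2 (n + 2) k := by
    intro k hk u v M0 M1 h
    have hk' : (k : ℚ) ≤ n + 2 := by exact_mod_cast Nat.lt_succ_iff.1 hk
    rw [T2_pred n k (by omega), T2, T2, hc_succ]
    generalize hc (n + 2) _ _ k = τ
    push_cast
    have h1 : ((k : ℚ) - 2 * n - 1) ≠ 0 := by linarith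
    have h2 : ((k : ℚ) - 2 * n - 2) ≠ 0 := by linarith
    have h3 : ((k : ℚ) - 2 * n - 3) ≠ 0 := by linarith
    have h4 : ((k : ℚ) - 2 * n - 4) ≠ 0 := by linarith
    have h5 : (2 * (n : ℚ) + 1) ≠ 0 := by positivity
    have h6 : (6 * (n : ℚ) + 5) ≠ 0 := by positivity
    have h7 : (6 * (n : ℚ) + 13) ≠ 0 := by positivity
    rw [show (k : ℚ) + -2 * (n + 2) = k - 2 * n - 4 by ring,
      show (k : ℚ) + 1 - 2 * n - 2 = k - 2 * n - 1 by ring,
      show (k : ℚ) + 1 - 2 * n - 3 = k - 2 * n - 2 by ring,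
      show (k : ℚ) + 1 - 2 * n - 4 = k - 2 * n - 3 by ring]
    generalize (k : ℚ) - 2 * n - 4 = a4 at h4 h ⊢
    generalize (k : ℚ) - 2 * n - 3 = a3 at h3 h ⊢
    generalize (k : ℚ) - 2 * n - 2 = a2 at h2 h ⊢
    generalize (k : ℚ) - 2 * n - 1 = a1 at h1 h ⊢
    generalize M0 (k + 1) = m0 at h ⊢
    generalize M1 k = m1 at h ⊢
    field_simp
    linear_combination 4 * τ * h
  set N0 : ℚ → ℚ := fun k => -2598 + 3345 * k - 1407 * k ^ 2 + 192 * k ^ 3 - 4062 * n +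
    3516 * n * k - 738 * n * k ^ 2 - 2052 * n ^ 2 + 900 * n ^ 2 * k - 336 * n ^ 3
  set N1 : ℚ → ℚ := fun k => -1846 + 2323 * k - 956 * k ^ 2 + 128 * k ^ 3 - 3075 * n +
    2560 * n * k - 520 * n * k ^ 2 - 1676 * n ^ 2 + 692 * n ^ 2 * k - 300 * n ^ 3
  have h := telescope2 hr (n + 2 + 1)
    (fun k => 1 * T2 (n + 2) k + (-45) * ((6 * n + 5) / (4 * (2 * n + 1))) * T2 n k)
    (fun k => 0 * T2 (n + 2) k + (-26) * ((6 * n + 5) / (4 * (2 * n + 1))) * T2 n k)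
    (fun k => k * N0 k / (3 * (6 * n + 13) *
      (((k : ℚ) - 2 * n - 2) * (k - 2 * n - 3) * (k - 2 * n - 4))) * T2 (n + 2) k)
    (fun k => k * N1 k / (3 * (6 * n + 13) *
      (((k : ℚ) - 2 * n - 2) * (k - 2 * n - 3) * (k - 2 * n - 4))) * T2 (n + 2) k)
    (by simp) (by simp) (by rw [T2, hc_zero _ _ (by omega), mul_zero])
    (by rw [T2, hc_zero _ _ (by omega), mul_zero])
    (fun k hk => by
      rw [key k hk 1 (-45) (fun k => 8 * N0 k + 12 * N1 k) N0 (by simp only [N0, N1]; ring)]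
      ring)
    (fun k hk => by
      rw [key k hk 0 (-26) (fun k => 4 * N0 k + 8 * N1 k) N1 (by simp only [N0, N1]; ring)]
      ring)
  rw [ev_lin, ev_lin, show T2 n = hc n _ _ from rfl, ev_ext, ← show T2 n = hc n _ _ from rfl] at h
  simp only [map_mul, map_one, map_zero, map_ofNat, map_neg] at h
  linear_combination h

theorem ratio_two {r : S} (hr : r ^ 2 = 3) :
    ev r (2 + 1) (T2 2) = -(2 + r) ^ 2 * ev r (2 + 1) (T3 2) := by
  have key : ∀ f : ℕ → ℚ, ev r (2 + 1) f = algebraMap ℚ S (f 0 + 8 * f 1 + 112 * f 2) +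
      algebraMap ℚ S (4 * f 1 + 64 * f 2) * r := by
    intro f
    simp only [ev, sum_range_succ, range_zero, sum_empty, map_add, map_mul, map_ofNat]
    linear_combination (16 * algebraMap ℚ S (f 2)) * hr
  rw [key, key]
  generalize hx : T3 2 0 + 8 * T3 2 1 + 112 * T3 2 2 = x
  generalize hy : 4 * T3 2 1 + 64 * T3 2 2 = y
  rw [show T2 2 0 + 8 * T2 2 1 + 112 * T2 2 2 = -(7 * x + 12 * y) by
      rw [← hx, ← hy]; norm_num [T2, T3, hc, prod_range_succ],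
    show 4 * T2 2 1 + 64 * T2 2 2 = -(4 * x + 7 * y) by
      rw [← hx, ← hy]; norm_num [T2, T3, hc, prod_range_succ]]
  simp only [map_add, map_mul, map_ofNat, map_neg]
  linear_combination (algebraMap ℚ S x + algebraMap ℚ S y * (r + 4)) * hr

theorem ratio_three {r : S} (hr : r ^ 2 = 3) :
    ev r (3 + 1) (T2 3) = -(2 + r) ^ 4 * ev r (3 + 1) (T3 3) := by
  have key : ∀ f : ℕ → ℚ, ev r (3 + 1) f =
      algebraMap ℚ S (f 0 + 8 * f 1 + 112 * f 2 + 1664 * f 3) +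
      algebraMap ℚ S (4 * f 1 + 64 * f 2 + 960 * f 3) * r := by
    intro f
    simp only [ev, sum_range_succ, range_zero, sum_empty, map_add, map_mul, map_ofNat]
    linear_combination (16 * algebraMap ℚ S (f 2) + algebraMap ℚ S (f 3) * (384 + 64 * r)) * hr
  rw [key, key]
  generalize hx : T3 3 0 + 8 * T3 3 1 + 112 * T3 3 2 + 1664 * T3 3 3 = x
  generalize hy : 4 * T3 3 1 + 64 * T3 3 2 + 960 * T3 3 3 = y
  rw [show T2 3 0 + 8 * T2 3 1 + 112 * T2 3 2 + 1664 * T2 3 3 = -(97 * x + 168 * y) by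
      rw [← hx, ← hy]; norm_num [T2, T3, hc, prod_range_succ],
    show 4 * T2 3 1 + 64 * T2 3 2 + 960 * T2 3 3 = -(56 * x + 97 * y) by
      rw [← hx, ← hy]; norm_num [T2, T3, hc, prod_range_succ]]
  simp only [map_add, map_mul, map_ofNat, map_neg]
  linear_combination (algebraMap ℚ S x * (r ^ 2 + 8 * r + 27) +
    algebraMap ℚ S y * (r ^ 3 + 8 * r ^ 2 + 27 * r + 56)) * hr

theorem ratio_even {r : S} (hr : r ^ 2 = 3) (j : ℕ) :
    ev r (2 * j + 2 + 1) (T2 (2 * j + 2)) =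
      (-(2 + r) ^ 2) ^ (j + 1) * ev r (2 * j + 2 + 1) (T3 (2 * j + 2)) := by
  induction j with
  | zero => simpa using ratio_two hr
  | succ j ih =>
    rw [show 2 * (j + 1) + 2 = 2 * j + 2 + 2 by ring, F2_rec hr _ (by omega),
      F3_rec hr _ (by omega), ih, pow_succ _ (j + 1)]
    generalize algebraMap ℚ S _ = q
    generalize (-(2 + r) ^ 2) ^ (j + 1) = e
    generalize ev r _ _ = F
    linear_combination (-(2 * r + 11) * q * e * F) * hr

theorem ratio_odd {r : S} (hr : r ^ 2 = 3) (j : ℕ) :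
    ev r (2 * j + 3 + 1) (T2 (2 * j + 3)) =
      (-(2 + r) ^ 2) ^ (j + 1) * (2 + r) ^ 2 * ev r (2 * j + 3 + 1) (T3 (2 * j + 3)) := by
  induction j with
  | zero =>
    have := ratio_three hr
    simp only [mul_zero, zero_add, pow_one]
    linear_combination this
  | succ j ih =>
    rw [show 2 * (j + 1) + 3 = 2 * j + 3 + 2 by ring, F2_rec hr _ (by omega),
      F3_rec hr _ (by omega), ih, pow_succ _ (j + 1)]
    generalize algebraMap ℚ S _ = q
    generalize (-(2 + r) ^ 2) ^ (j + 1) = e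
    generalize ev r _ _ = F
    linear_combination (-(2 * r + 11) * q * e * (2 + r) ^ 2 * F) * hr

end Pool.Agent.MP_d636e9_nt
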